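import Pool.Agent.H590R2.RS.Defs

/-!
A1: concatenation of walks.
-/

namespace Pool.Agent.H590R2.RS

theorem A1 : S_A1 := by
  intro V G x y l m
  refine ⟨?_, ?_, ?_, ?_, ?_⟩
  · induction l generalizing x with
    | nil => intro h; simpa [isW, endp] using h
    | cons a l ih =>
      intro h
      exact ih a h.2
  · induction l generalizing x with
    | nil => simp [isW, endp]
    | cons a l ih =>
      simp only [List.cons_append, isW, endp]
      rw [ih a, and_assoc]
  · induction l generalizing x with
    | nil => simp [endp]
    | cons a l ih =>
      simp only [List.cons_append, endp]
      exact ih a
  · induction l generalizing x with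
    | nil => simp [edg, endp]
    | cons a l ih =>
      simp only [List.cons_append, edg, endp]
      rw [ih a]
  · intro c
    induction l generalizing x with
    | nil => simp [cr, endp]
    | cons a l ih =>
      simp only [List.cons_append, cr, endp]
      rw [ih a, Nat.add_assoc]

end Pool.Agent.H590R2.RS
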