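import Pool.Agent.H590R2.RS.Defs

/-!
Task A2: reversal of walks.
-/

namespace Pool.Agent.H590R2.RS

namespace A2aux

theorem endp_app {V : Type} (x z : V) (l : List V) : endp x (l ++ [z]) = z := by
  induction l generalizing x with
  | nil => rfl
  | cons a l ih => exact ih a

theorem isW_app {V : Type} (G : SimpleGraph V) (x y z : V) (l : List V) (h : isW G x l y)
    (hz : G.Adj y z) : isW G x (l ++ [z]) z := by
  induction l generalizing x with
  | nil =>
    have h' : x = y := h
    subst h'
    exact ⟨hz, rfl⟩
  | cons a l ih => exact ⟨h.1, ih a h.2⟩

theorem edg_app {V : Type} (x z : V) (l : List V) :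
    edg x (l ++ [z]) = edg x l ++ [s(endp x l, z)] := by
  induction l generalizing x with
  | nil => rfl
  | cons a l ih =>
    change s(x, a) :: edg a (l ++ [z]) = (s(x, a) :: edg a l) ++ [s(endp a l, z)]
    rw [ih]
    rfl

open Classical in
theorem cr_app {V : Type} (c : V → V) (x z : V) (l : List V) :
    cr c x (l ++ [z]) = cr c x l + (if c (endp x l) = c z then 0 else 1) := by
  induction l generalizing x with
  | nil =>
    change (if c x = c z then 0 else 1) + 0 = 0 + (if c x = c z then 0 else 1)
    rw [add_comm]
  | cons a l ih =>
    change (if c x = c a then 0 else 1) + cr c a (l ++ [z]) =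
      (if c x = c a then 0 else 1) + cr c a l + (if c (endp a l) = c z then 0 else 1)
    rw [ih, add_assoc]

theorem rev_app {V : Type} (x z : V) (l : List V) :
    rev x (l ++ [z]) = endp x l :: rev x l := by
  induction l generalizing x with
  | nil => rfl
  | cons a l ih =>
    change rev a (l ++ [z]) ++ [x] = endp a l :: (rev a l ++ [x])
    rw [ih]
    rfl

theorem endp_rev {V : Type} (x : V) (l : List V) : endp (endp x l) (rev x l) = x := by
  cases l with
  | nil => rfl
  | cons a l => exact endp_app _ _ _

end A2aux

open A2aux in
theorem A2 : S_A2 := by
  intro V _ G x y l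
  refine ⟨?_, ?_, endp_rev x l, ?_, ?_, ?_, ?_⟩
  · induction l generalizing x with
    | nil => rfl
    | cons a l ih =>
      change (rev a l ++ [x]).length = _
      rw [List.length_append, ih]
      rfl
  · intro h
    induction l generalizing x with
    | nil =>
      have h' : x = y := h
      exact h'.symm
    | cons a l ih => exact isW_app G y a x (rev a l) (ih a h.2) h.1.symm
  · induction l generalizing x with
    | nil => rfl
    | cons a l ih =>
      change rev (endp a l) (rev a l ++ [x]) = a :: l
      rw [rev_app, ih, endp_rev]
  · intro e
    induction l generalizing x with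
    | nil => rfl
    | cons a l ih =>
      change (edg (endp a l) (rev a l ++ [x])).count e = (s(x, a) :: edg a l).count e
      rw [edg_app, endp_rev, List.count_append, ih, Sym2.eq_swap (a := a) (b := x)]
      simp only [List.count_cons, List.count_nil, zero_add]
  · intro c
    induction l generalizing x with
    | nil => rfl
    | cons a l ih =>
      change cr c (endp a l) (rev a l ++ [x]) = _
      rw [cr_app, endp_rev, ih, cr, add_comm]
      congr 1
      by_cases h : c a = c x
      · rw [if_pos h, if_pos h.symm]
      · rw [if_neg h, if_neg (fun h' => h h'.symm)]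
  · intro z
    induction l generalizing x with
    | nil => rfl
    | cons a l ih =>
      change z ∈ endp a l :: (rev a l ++ [x]) ↔ z ∈ x :: a :: l
      rw [← List.cons_append, List.mem_append, ih]
      simp only [List.mem_cons, List.not_mem_nil, or_false]
      tauto

end Pool.Agent.H590R2.RS
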