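import Pool.Agent.H590R2.RS.Defs

/-!
# Random signings, task A3: splitting at an edge and at the first crossing step
-/

namespace Pool.Agent.H590R2.RS

theorem A3_edge {V : Type} (l : List V) : ∀ (x : V), ∀ e ∈ edg x l,
    ∃ α b γ, l = α ++ b :: γ ∧ s(endp x α, b) = e := by
  induction l with
  | nil =>
    intro x e he
    simp [edg] at he
  | cons a l ih =>
    intro x e he
    rw [edg, List.mem_cons] at he
    rcases he with he | he
    · exact ⟨[], a, l, rfl, he.symm⟩
    · obtain ⟨α, b, γ, h1, h2⟩ := ih a e he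
      exact ⟨a :: α, b, γ, by rw [h1]; rfl, h2⟩

theorem A3_first {V : Type} (c : V → V) (l : List V) : ∀ (x : V), cr c x l ≠ 0 →
    ∃ α b γ, l = α ++ b :: γ ∧ cr c x α = 0 ∧ c (endp x α) ≠ c b := by
  induction l with
  | nil =>
    intro x h
    exact absurd rfl h
  | cons a l ih =>
    intro x h
    by_cases hc : c x = c a
    · have h2 : cr c a l ≠ 0 := by
        intro h3
        apply h
        rw [cr, if_pos hc, h3]
      obtain ⟨α, b, γ, h3, h4, h5⟩ := ih a h2
      refine ⟨a :: α, b, γ, by rw [h3]; rfl, ?_, h5⟩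
      rw [cr, if_pos hc, h4]
    · exact ⟨[], a, l, rfl, rfl, hc⟩

theorem A3_cross {V : Type} [DecidableEq V] (c : V → V) (u v : V) (huv : c u ≠ c v)
    (l : List V) : ∀ (x : V), (edg x l).count s(u, v) ≤ cr c x l := by
  induction l with
  | nil =>
    intro x
    simp [edg, cr]
  | cons a l ih =>
    intro x
    rw [edg, cr, List.count_cons]
    have h1 := ih a
    by_cases he : s(x, a) = s(u, v)
    · have hc : c x ≠ c a := by
        rcases Sym2.eq_iff.1 he with ⟨h2, h3⟩ | ⟨h2, h3⟩
        · rw [h2, h3]; exact huv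
        · rw [h2, h3]; exact huv.symm
      rw [if_neg hc, if_pos (by simpa using he)]
      omega
    · rw [if_neg (by simpa using he)]
      omega

theorem A3_zero {V : Type} (c : V → V) (l : List V) : ∀ (x : V), cr c x l = 0 →
    ∀ y ∈ l, c y = c x := by
  induction l with
  | nil =>
    intro x _ y hy
    simp at hy
  | cons a l ih =>
    intro x h y hy
    by_cases hc : c x = c a
    · rw [cr, if_pos hc, zero_add] at h
      rcases List.mem_cons.1 hy with hy | hy
      · rw [hy, hc]
      · rw [ih a h y hy, hc]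
    · rw [cr, if_neg hc] at h
      omega

theorem A3 : S_A3 := by
  intro V _ x l
  refine ⟨A3_edge l x, fun c h => A3_first c l x h, fun c h => ⟨A3_zero c l x h, ?_⟩,
    fun c u v huv => A3_cross c u v huv l x⟩
  intro u v huv
  have := A3_cross c u v huv l x
  omega

end Pool.Agent.H590R2.RS
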