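import Pool.Agent.H590R2.RS.Defs

/-!
# A4: the relation `Near`   (helper972)
-/

set_option autoImplicit false

namespace Pool.Agent.H590R2.RS

namespace A4aux

theorem isW_app {V : Type} (G : SimpleGraph V) (y z : V) (m : List V) (hm : isW G y m z) :
    ∀ (l : List V) (x : V), isW G x l y → isW G x (l ++ m) z
  | [], x, h => by
      have hxy : x = y := h
      subst hxy
      simpa using hm
  | a :: l, x, h => ⟨h.1, isW_app G y z m hm l a h.2⟩

theorem isW_snoc {V : Type} (G : SimpleGraph V) (y z : V) (h : G.Adj y z) :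
    isW G y [z] z := ⟨h, rfl⟩

theorem near_rev {V : Type} (G : SimpleGraph V) (y : V) :
    ∀ (l : List V) (x : V), isW G x l y → ∃ m : List V, m.length = l.length ∧ isW G y m x
  | [], x, h => by
      have hxy : x = y := h
      subst hxy
      exact ⟨[], rfl, rfl⟩
  | a :: l, x, h => by
      obtain ⟨m, hm1, hm2⟩ := near_rev G y l a h.2
      refine ⟨m ++ [x], by simp [hm1], ?_⟩
      exact isW_app G a x [x] (isW_snoc G a x h.1.symm) m y hm2

end A4aux

open A4aux in
theorem A4 : S_A4 := by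
  intro V G a b x y z
  refine ⟨⟨[], le_refl _, rfl⟩, ?_, ?_, ?_, ?_⟩
  · rintro ⟨l, h1, h2⟩ hab
    exact ⟨l, h1.trans hab, h2⟩
  · rintro ⟨l, h1, h2⟩
    obtain ⟨m, hm1, hm2⟩ := near_rev G y l x h2
    exact ⟨m, by omega, hm2⟩
  · rintro ⟨l, h1, h2⟩ ⟨m, h3, h4⟩
    refine ⟨l ++ m, ?_, isW_app G y z m h4 l x h2⟩
    rw [List.length_append]
    omega
  · rintro ⟨l, h1, h2⟩ h3
    refine ⟨l ++ [z], ?_, isW_app G y z [z] (isW_snoc G y z h3) l x h2⟩
    rw [List.length_append]
    simpa using h1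

end Pool.Agent.H590R2.RS
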