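import Pool.Agent.H590R2.RS.Defs

/-! Task B0: the three cases. -/

namespace Pool.Agent.H590R2.RS

theorem B0 (hA1 : S_A1) (hA3 : S_A3) : S_B0 := by
  intro V _ c x l hEv hcr
  have happ : ∀ (x : V) (l m : List V), edg x (l ++ m) = edg x l ++ edg (endp x l) m :=
    fun x l m => (hA1 V ⊤ x x l m).2.2.2.1
  have hend : ∀ (x : V) (l m : List V), endp x (l ++ m) = endp (endp x l) m :=
    fun x l m => (hA1 V ⊤ x x l m).2.2.1
  obtain ⟨α, v, δ, rfl, h0, hne⟩ := (hA3 V x l).2.1 c hcr
  have hα : ∀ u w, c u ≠ c w → (edg x α).count s(u, w) = 0 := ((hA3 V x α).2.2.1 c h0).2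
  have hcount : ∀ p q, c p ≠ c q → Even ((if s(endp x α, v) = s(p, q) then 1 else 0) +
      (edg v δ).count s(p, q)) := by
    intro p q hpq
    have h := hEv p q hpq
    rw [happ, List.count_append, hα p q hpq, Nat.zero_add] at h
    have e : edg (endp x α) (v :: δ) = s(endp x α, v) :: edg v δ := rfl
    rw [e, List.count_cons] at h
    rw [Nat.add_comm]
    simpa using h
  have hmem : s(endp x α, v) ∈ edg v δ := by
    by_contra hn
    have h := hcount _ _ hne
    rw [if_pos rfl, List.count_eq_zero_of_not_mem hn] at h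
    exact absurd h (by decide)
  obtain ⟨β, b, γ, rfl, hb⟩ := (hA3 V v δ).1 _ hmem
  rcases Sym2.eq_iff.1 hb with ⟨h1, h2⟩ | ⟨h1, h2⟩
  · subst h2
    left
    exact ⟨α, b, β, γ, rfl, h1, hne⟩
  · subst h2
    have hsplit : ∀ p q, (edg v (β ++ endp x α :: γ)).count s(p, q) =
        (edg v β).count s(p, q) + ((edg (endp x α) γ).count s(p, q) +
          (if s(v, endp x α) = s(p, q) then 1 else 0)) := by
      intro p q
      rw [happ, List.count_append, h1]
      have e : edg v (endp x α :: γ) = s(v, endp x α) :: edg (endp x α) γ := rfl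
      rw [e, List.count_cons]
      simp
    have htot : ∀ p q, c p ≠ c q → Even ((edg v β).count s(p, q) +
        (edg (endp x α) γ).count s(p, q)) := by
      intro p q hpq
      have h := hcount p q hpq
      rw [hsplit, Sym2.eq_swap (a := v)] at h
      split_ifs at h
      · rw [Nat.even_iff] at h ⊢
        omega
      · rw [Nat.even_iff] at h ⊢
        omega
    by_cases hβ : Ev c v β
    · right; right
      refine ⟨α, v, β, γ, rfl, h1, hne, hβ, ?_⟩
      intro p q hpq
      rw [happ, List.count_append, hα p q hpq, Nat.zero_add]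
      have h3 := htot p q hpq
      have h4 := hβ p q hpq
      rw [Nat.even_iff] at h3 h4 ⊢
      omega
    · unfold Ev at hβ
      push Not at hβ
      obtain ⟨p, q, hpq, hodd⟩ := hβ
      have h3 := htot p q hpq
      have hm1 : s(p, q) ∈ edg v β := by
        by_contra hn
        rw [List.count_eq_zero_of_not_mem hn] at hodd
        exact hodd (by decide)
      have hm2 : s(p, q) ∈ edg (endp x α) γ := by
        by_contra hn
        rw [List.count_eq_zero_of_not_mem hn, Nat.add_zero] at h3
        exact hodd h3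
      obtain ⟨β1, b1, β2, rfl, e1⟩ := (hA3 V v β).1 _ hm1
      obtain ⟨γ1, b2, γ2, rfl, e2⟩ := (hA3 V (endp x α) γ).1 _ hm2
      have hc1 : c (endp v β1) ≠ c b1 := by
        rcases Sym2.eq_iff.1 e1 with ⟨h5, h6⟩ | ⟨h5, h6⟩
        · rw [h5, h6]; exact hpq
        · rw [h5, h6]; exact fun h => hpq h.symm
      have h7 : endp b1 β2 = v := by
        rw [hend] at h1
        exact h1
      rcases Sym2.eq_iff.1 (e1.trans e2.symm) with ⟨h5, h6⟩ | ⟨h5, h6⟩
      · left
        refine ⟨α ++ v :: β1, b1, β2 ++ endp x α :: γ1, γ2, ?_, ?_, ?_⟩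
        · rw [← h6]
          simp
        · rw [hend, hend]
          change endp (endp x α) γ1 = endp v β1
          exact h5.symm
        · rw [hend]
          exact hc1
      · right; left
        refine ⟨α, v, β1, b1, β2, γ1, γ2, ?_, h7, h6.symm, hne, hc1⟩
        rw [← h5]
        simp

end Pool.Agent.H590R2.RS
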