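import Pool.Agent.H590R2.RS.Defs

namespace Pool.Agent.H590R2.RS

private theorem endp_app {V : Type} : ∀ (x : V) (l m : List V),
    endp x (l ++ m) = endp (endp x l) m
  | _, [], _ => rfl
  | _, a :: l, m => by
    simp only [List.cons_append, endp]
    exact endp_app a l m

private theorem isW_app {V : Type} (G : SimpleGraph V) : ∀ (x y : V) (l m : List V),
    isW G x (l ++ m) y ↔ isW G x l (endp x l) ∧ isW G (endp x l) m y
  | _, _, [], _ => by simp [isW, endp]
  | _, y, a :: l, m => by
    simp only [List.cons_append, endp, isW]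
    rw [isW_app G a y l m]
    tauto

private theorem cr_app {V : Type} (c : V → V) : ∀ (x : V) (l m : List V),
    cr c x (l ++ m) = cr c x l + cr c (endp x l) m
  | _, [], _ => by simp [cr, endp]
  | _, a :: l, m => by
    simp only [List.cons_append, endp, cr]
    rw [cr_app c a l m]
    ring

private theorem edg_app {V : Type} : ∀ (x : V) (l m : List V),
    edg x (l ++ m) = edg x l ++ edg (endp x l) m
  | _, [], _ => by simp [edg, endp]
  | _, a :: l, m => by
    simp only [List.cons_append, endp, edg]
    rw [edg_app a l m]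

theorem BJ : S_BJ := by
  intro V _ G ρ k L x c α β1 β2 γ1 γ2 v q l hl hW hq hu hc1 hc2 hL hN hE hcr
  subst hl
  have hw := hW
  rw [isW_app] at hw
  obtain ⟨h1, h2⟩ := hw
  simp only [isW] at h2
  obtain ⟨h3, h4⟩ := h2
  rw [isW_app] at h4
  obtain ⟨h5, h6⟩ := h4
  simp only [isW] at h6
  obtain ⟨h7, h8⟩ := h6
  rw [isW_app] at h8
  obtain ⟨h9, h10⟩ := h8
  simp only [isW] at h10
  obtain ⟨h11, h12⟩ := h10
  rw [isW_app] at h12
  obtain ⟨h13, h14⟩ := h12
  simp only [isW] at h14
  obtain ⟨h15, h16⟩ := h14
  simp only [cr_app, cr, hq, hu, if_neg hc1, if_neg (Ne.symm hc1), if_neg hc2,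
    if_neg (Ne.symm hc2)] at hcr
  refine ⟨?_, α ++ (γ1 ++ (β2 ++ (β1 ++ γ2))), ⟨?_, ?_, c, ?_, ?_, ?_⟩, ?_⟩
  · rw [← hL]; simp only [List.length_append, List.length_cons]; omega
  · rw [← hL]; simp only [List.length_append, List.length_cons]; omega
  · simp only [isW_app, hu, hq]
    rw [hu] at h13
    rw [hq] at h9
    exact ⟨h1, h13, h9, h5, h16⟩
  · intro y hy
    apply hN
    simp only [List.mem_cons, List.mem_append] at hy ⊢
    tauto
  · intro a b hab
    have := hE a b hab
    simp only [edg_app, edg, hq, hu, List.count_append, List.count_cons] at this ⊢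
    rw [Sym2.eq_swap (a := v) (b := endp x α), Sym2.eq_swap (a := q) (b := endp v β1)] at this
    rw [Nat.even_iff] at this ⊢
    omega
  · simp only [cr_app, hu, hq]
    omega
  · simp only [decJ, joinJ]
    simp only [List.take_left' rfl, List.drop_left' rfl, endp_app, hu, hq]

end Pool.Agent.H590R2.RS
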