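import Pool.Agent.H590R2.RS.Defs

/-! Project RS (helper590), task BM (helper509): the structure lemma. -/

set_option autoImplicit false

namespace Pool.Agent.H590R2.RS

theorem BM (hB0 : S_B0) (hBR : S_BR) (hBJ : S_BJ) (hBS : S_BS) : S_BM := by
  intro V _ G ρ k L x l hl
  obtain ⟨hlen, hW, c, hnear, hEv, hcr⟩ := hl
  by_cases h0 : cr c x l = 0
  · exact Or.inl ⟨hlen, hW, c, hnear, hEv, h0.le⟩
  right
  rcases hB0 V c x l hEv h0 with ⟨α, v, β, γ, h1, h2, h3⟩ |
    ⟨α, v, β1, q, β2, γ1, γ2, h1, h2, h3, h4, h5⟩ | ⟨α, v, β, γ, h1, h2, h3, h4, h5⟩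
  · left
    obtain ⟨hL, l', hl', he⟩ := hBR V G ρ k L x c α β γ v l h1 hW h2 h3 hlen hnear hEv hcr
    refine ⟨hL, α.length, ?_, β.length, ?_, l', hl', he⟩
    all_goals
      rw [← hlen, h1]
      simp only [List.length_append, List.length_cons]
      omega
  · right
    left
    obtain ⟨hL, l', hl', he⟩ := hBJ V G ρ k L x c α β1 β2 γ1 γ2 v q l h1 hW h2 h3 h4 h5 hlen hnear
      hEv hcr
    refine ⟨hL, α.length, ?_, γ1.length, ?_, β2.length, ?_, β1.length, ?_, l', hl', he⟩
    all_goals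
      rw [← hlen, h1]
      simp only [List.length_append, List.length_cons]
      omega
  · right
    right
    obtain ⟨k1, k2, L1, L2, e1, e2, l1, hl1, w, β', hβ', hadj, he⟩ :=
      hBS V G ρ k L x c α β γ v l h1 hW h2 h3 hlen hnear h4 h5 hcr
    refine ⟨k1, k2, L1, L2, e1, e2, α.length, ?_, l1, hl1, w, β', hβ', hadj, he⟩
    rw [← hlen, h1]
    simp only [List.length_append, List.length_cons]
    omega

end Pool.Agent.H590R2.RS
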