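import Pool.Agent.H590R2.RS.Defs

/-! BR: reversal surgery. -/

namespace Pool.Agent.H590R2.RS

theorem BR_endp_append {V : Type} (x : V) (l m : List V) :
    endp x (l ++ m) = endp (endp x l) m := by
  induction l generalizing x with
  | nil => rfl
  | cons a l ih => exact ih a

theorem BR_cr_cons {V : Type} (c : V → V) (x a : V) (l : List V) (h : c x ≠ c a) :
    cr c x (a :: l) = 1 + cr c a l := by
  simp only [cr, if_neg h]

theorem BR (hA1 : S_A1) (hA2 : S_A2) : S_BR := by
  intro V _ G ρ k L x c α β γ v l hl hw hβ hc hL hN hE hcr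
  set u := endp x α with hu
  obtain ⟨hrlen, -, hrend, hrrev, hrcount, hrcr, hrmem⟩ := hA2 V G v v β
  have hrW : isW G v β (endp v β) → isW G (endp v β) (rev v β) v :=
    (hA2 V G v (endp v β) β).2.1
  rw [hβ] at hrend hrrev hrcount hrcr hrmem hrW
  -- the walk
  have hw1 := hw
  rw [hl] at hw1
  obtain ⟨-, hA1b, -, -, -⟩ := hA1 V G x x α (v :: (β ++ v :: γ))
  obtain ⟨hwα, hw2⟩ := hA1b.1 hw1
  rw [← hu] at hwα hw2
  obtain ⟨hadj, hw3⟩ := hw2
  obtain ⟨-, hA1c, -, -, -⟩ := hA1 V G v x β (v :: γ)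
  obtain ⟨hwβ, hw4⟩ := hA1c.1 hw3
  rw [hβ] at hwβ hw4
  obtain ⟨-, hwγ⟩ := hw4
  have hwr := hrW hwβ
  -- the new walk
  have hW' : isW G x (α ++ (rev v β ++ γ)) x := by
    rw [(hA1 V G x x α (rev v β ++ γ)).2.1, ← hu, (hA1 V G u x (rev v β) γ).2.1, hrend]
    exact ⟨hwα, hwr, hwγ⟩
  have hlen : l.length = α.length + β.length + γ.length + 2 := by
    rw [hl]
    simp only [List.length_append, List.length_cons]
    omega
  -- counts
  have hcount : ∀ e, (edg x l).count e =
      (edg x (α ++ (rev v β ++ γ))).count e + 2 * (if s(u, v) = e then 1 else 0) := by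
    intro e
    rw [hl, (hA1 V G x x α (v :: (β ++ v :: γ))).2.2.2.1, ← hu,
      (hA1 V G x x α (rev v β ++ γ)).2.2.2.1, ← hu, (hA1 V G u x (rev v β) γ).2.2.2.1, hrend]
    change (edg x α ++ s(u, v) :: edg v (β ++ v :: γ)).count e = _
    rw [(hA1 V G v x β (v :: γ)).2.2.2.1, hβ]
    change (edg x α ++ s(u, v) :: (edg v β ++ s(u, v) :: edg v γ)).count e = _
    simp only [List.count_append, List.count_cons, hrcount e, beq_iff_eq]
    split_ifs <;> omega
  have hcr2 : cr c x l = cr c x (α ++ (rev v β ++ γ)) + 2 := by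
    rw [hl, (hA1 V G x x α (v :: (β ++ v :: γ))).2.2.2.2, ← hu,
      (hA1 V G x x α (rev v β ++ γ)).2.2.2.2, ← hu, (hA1 V G u x (rev v β) γ).2.2.2.2, hrend]
    rw [BR_cr_cons c u v _ hc, (hA1 V G v x β (v :: γ)).2.2.2.2, hβ, BR_cr_cons c u v _ hc, hrcr c]
    omega
  refine ⟨by omega, α ++ (rev v β ++ γ), ⟨?_, hW', c, ?_, ?_, ?_⟩, ?_⟩
  · simp only [List.length_append, hrlen]
    omega
  · intro y hy
    apply hN
    rw [hl]
    have hmem := hrmem y
    simp only [List.mem_cons, List.mem_append] at hy hmem ⊢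
    rcases hy with h | h | h | h
    · exact Or.inl h
    · exact Or.inr (Or.inl h)
    · rcases hmem.1 (Or.inr h) with h' | h'
      · exact Or.inr (Or.inr (Or.inl h'))
      · exact Or.inr (Or.inr (Or.inr (Or.inl h')))
    · exact Or.inr (Or.inr (Or.inr (Or.inr (Or.inr h))))
  · intro a b hab
    have h1 := hE a b hab
    rw [hcount, Nat.even_add] at h1
    exact h1.2 (even_two_mul _)
  · omega
  · unfold decR
    have ht : (α ++ (rev v β ++ γ)).take α.length = α := List.take_left
    have hd : (α ++ (rev v β ++ γ)).drop α.length = rev v β ++ γ := List.drop_left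
    have ht2 : (rev v β ++ γ).take β.length = rev v β := by
      rw [← hrlen]; exact List.take_left
    have hd2 : (rev v β ++ γ).drop β.length = γ := by
      rw [← hrlen]; exact List.drop_left
    rw [ht, hd, ht2, hd2, ← hu, hrend, hrrev]
    exact hl

end Pool.Agent.H590R2.RS
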