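import Pool.Agent.H590R2.RS.Defs

namespace Pool.Agent.H590R2.RS

private theorem endp_app {V : Type} : ∀ (x : V) (l m : List V),
    endp x (l ++ m) = endp (endp x l) m
  | _, [], _ => rfl
  | _, a :: l, m => by
    simp only [List.cons_append, endp]
    exact endp_app a l m

private theorem isW_app {V : Type} (G : SimpleGraph V) : ∀ (x y : V) (l m : List V),
    isW G x (l ++ m) y ↔ isW G x l (endp x l) ∧ isW G (endp x l) m y
  | _, _, [], _ => by simp [isW, endp]
  | _, y, a :: l, m => by
    simp only [List.cons_append, endp, isW]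
    rw [isW_app G a y l m]
    tauto

private theorem cr_app {V : Type} (c : V → V) : ∀ (x : V) (l m : List V),
    cr c x (l ++ m) = cr c x l + cr c (endp x l) m
  | _, [], _ => by simp [cr, endp]
  | _, a :: l, m => by
    simp only [List.cons_append, endp, cr]
    rw [cr_app c a l m]
    ring

private theorem isW_end {V : Type} (G : SimpleGraph V) : ∀ (x y : V) (l : List V),
    isW G x l y → endp x l = y
  | _, _, [], h => h
  | _, y, a :: l, h => isW_end G a y l h.2

theorem BS : S_BS := by
  intro V _ G ρ k L x c α β γ v l hl hW hv hc hL hN hE1 hE2 hcr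
  have hu : isW G x l x := hW
  subst hl
  rw [isW_app] at hu
  obtain ⟨h1, h2⟩ := hu
  simp only [isW] at h2
  obtain ⟨h3, h4⟩ := h2
  rw [isW_app] at h4
  obtain ⟨h5, h6⟩ := h4
  simp only [isW] at h6
  obtain ⟨h7, h8⟩ := h6
  rw [cr_app] at hcr
  simp only [cr] at hcr
  rw [cr_app] at hcr
  simp only [cr, hv, if_neg hc, if_neg (Ne.symm hc)] at hcr
  have hcr' : cr c x (α ++ γ) = cr c x α + cr c (endp x α) γ := cr_app c x α γ
  refine ⟨cr c x (α ++ γ), k - cr c x (α ++ γ), (α ++ γ).length, β.length, ?_, ?_, α ++ γ, ?_,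
    v, β, ?_, ?_, ?_⟩
  · omega
  · rw [← hL]; simp only [List.length_append, List.length_cons]; omega
  · refine ⟨rfl, ?_, c, ?_, hE2, le_rfl⟩
    · rw [isW_app]; exact ⟨h1, h8⟩
    · intro y hy
      apply hN
      simp only [List.mem_cons, List.mem_append] at hy ⊢
      tauto
  · refine ⟨rfl, ?_, c, ?_, hE1, ?_⟩
    · rw [hv] at h5; exact h5
    · intro y hy
      apply hN
      simp only [List.mem_cons, List.mem_append] at hy ⊢
      tauto
    · omega
  · rw [List.take_left' rfl]; exact h3
  · simp only [decS]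
    rw [List.take_left' rfl, List.drop_left' rfl]

end Pool.Agent.H590R2.RS
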