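import Pool.Agent.H590R2.RS.Defs

/-! C0: diagonal entries of powers of a symmetric nonnegative matrix. -/

namespace Pool.Agent.H590R2.RS

namespace C0aux

variable {V : Type} [Fintype V]

/-- the bilinear form -/
def q (M : Matrix V V ℝ) (f g : V → ℝ) : ℝ := ∑ u, ∑ v, M u v * (f u * g v)

lemma q_neg_le (M : Matrix V V ℝ) (lam : ℝ) (h0 : ∀ u v, 0 ≤ M u v)
    (h : ∀ f : V → ℝ, ∑ u, ∑ v, M u v * (f u * f v) ≤ lam * ∑ u, f u ^ 2) (f : V → ℝ) :
    -q M f f ≤ lam * ∑ u, f u ^ 2 := by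
  have h1 : -q M f f ≤ q M (fun u => |f u|) (fun u => |f u|) := by
    unfold q
    rw [← Finset.sum_neg_distrib]
    refine Finset.sum_le_sum fun u _ => ?_
    rw [← Finset.sum_neg_distrib]
    refine Finset.sum_le_sum fun v _ => ?_
    rw [← mul_neg, ← abs_mul]
    exact mul_le_mul_of_nonneg_left (neg_le_abs _) (h0 u v)
  have h2 := h (fun u => |f u|)
  simp only [sq_abs] at h2
  exact h1.trans h2

lemma q_le (M : Matrix V V ℝ) (lam : ℝ) (hs : M.transpose = M) (h0 : ∀ u v, 0 ≤ M u v)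
    (h : ∀ f : V → ℝ, ∑ u, ∑ v, M u v * (f u * f v) ≤ lam * ∑ u, f u ^ 2) (f g : V → ℝ) :
    4 * q M f g ≤ 2 * lam * (∑ u, f u ^ 2 + ∑ u, g u ^ 2) := by
  have hs' : ∀ u v, M u v = M v u := fun u v => congrFun (congrFun hs v) u
  have e1 : q M (fun u => f u + g u) (fun u => f u + g u)
      - q M (fun u => f u - g u) (fun u => f u - g u) = 2 * q M f g + 2 * q M g f := by
    unfold q
    simp only [Finset.mul_sum, ← Finset.sum_add_distrib, ← Finset.sum_sub_distrib]
    refine Finset.sum_congr rfl fun u _ => Finset.sum_congr rfl fun v _ => ?_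
    ring
  have e2 : q M g f = q M f g := by
    unfold q
    rw [Finset.sum_comm]
    refine Finset.sum_congr rfl fun u _ => Finset.sum_congr rfl fun v _ => ?_
    rw [hs' v u]; ring
  have i1 := h (fun u => f u + g u)
  have i2 := q_neg_le M lam h0 h (fun u => f u - g u)
  have e3 : lam * ∑ u, (f u + g u) ^ 2 + lam * ∑ u, (f u - g u) ^ 2
      = 2 * lam * (∑ u, f u ^ 2 + ∑ u, g u ^ 2) := by
    simp only [Finset.mul_sum, ← Finset.sum_add_distrib]
    refine Finset.sum_congr rfl fun u _ => ?_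
    ring
  have i1' : q M (fun u => f u + g u) (fun u => f u + g u) ≤ lam * ∑ u, (f u + g u) ^ 2 := i1
  linarith

lemma step (M : Matrix V V ℝ) (lam : ℝ) (hs : M.transpose = M) (h0 : ∀ u v, 0 ≤ M u v)
    (hl : 0 ≤ lam)
    (h : ∀ f : V → ℝ, ∑ u, ∑ v, M u v * (f u * f v) ≤ lam * ∑ u, f u ^ 2) (f : V → ℝ) :
    ∑ u, (∑ v, M u v * f v) ^ 2 ≤ lam ^ 2 * ∑ u, f u ^ 2 := by
  have hs' : ∀ u v, M u v = M v u := fun u v => congrFun (congrFun hs v) u
  obtain ⟨g, hg⟩ : ∃ g : V → ℝ, ∀ u, g u = ∑ v, M u v * f v := ⟨_, fun _ => rfl⟩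
  obtain ⟨b, hb⟩ : ∃ b : ℝ, b = ∑ u, (g u) ^ 2 := ⟨_, rfl⟩
  have hb0 : 0 ≤ b := by rw [hb]; exact Finset.sum_nonneg fun u _ => sq_nonneg _
  have key : ∀ t : ℝ, 4 * (t * b) ≤ 2 * lam * (∑ u, f u ^ 2 + t ^ 2 * b) := by
    intro t
    have h1 := q_le M lam hs h0 h f (fun u => t * g u)
    have e1 : q M f (fun u => t * g u) = t * b := by
      unfold q
      rw [Finset.sum_comm, hb, Finset.mul_sum]
      refine Finset.sum_congr rfl fun v _ => ?_
      have : ∑ u : V, M u v * (f u * (t * g v)) = t * (g v * g v) := by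
        have e3 : g v = ∑ u : V, M v u * f u := hg v
        have e4 : ∑ u : V, M u v * (f u * (t * g v)) = (t * g v) * ∑ u : V, M v u * f u := by
          rw [Finset.mul_sum]
          refine Finset.sum_congr rfl fun u _ => ?_
          rw [hs' u v]; ring
        rw [e4, ← e3]; ring
      rw [this]
      ring
    have e2 : ∑ u, (t * g u) ^ 2 = t ^ 2 * b := by
      rw [hb, Finset.mul_sum]
      refine Finset.sum_congr rfl fun u _ => ?_
      ring
    rw [e1, e2] at h1
    exact h1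
  have hb' : ∑ u, (∑ v, M u v * f v) ^ 2 = b := by
    rw [hb]
    exact Finset.sum_congr rfl fun u _ => by rw [hg]
  rw [hb']
  rcases hl.eq_or_lt with hl0 | hl0
  · have := key 1
    rw [← hl0] at this ⊢
    nlinarith
  · have h1 := key (1 / lam)
    have e : 2 * lam * (∑ u, f u ^ 2 + (1 / lam) ^ 2 * b)
        = 2 * lam * ∑ u, f u ^ 2 + 2 * (1 / lam * b) := by
      field_simp
    rw [e] at h1
    have h2 : 1 / lam * b ≤ lam * ∑ u, f u ^ 2 := by linarith
    rw [one_div, inv_mul_le_iff₀ hl0] at h2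
    calc b ≤ lam * (lam * ∑ u, f u ^ 2) := h2
      _ = _ := by ring

end C0aux

open C0aux in
theorem C0 : S_C0 := by
  intro V _ _ M lam hs h0 hl h L x
  have key : ∀ L : ℕ, ∑ u, ((M ^ L) u x) ^ 2 ≤ (lam ^ L) ^ 2 := by
    intro L
    induction L with
    | zero =>
      simp only [pow_zero, Matrix.one_apply]
      rw [Finset.sum_eq_single x]
      · simp
      · intro u _ hu; simp [hu]
      · intro hx; exact absurd (Finset.mem_univ x) hx
    | succ L ih =>
      have e : ∀ u, (M ^ (L + 1)) u x = ∑ v, M u v * (M ^ L) v x := by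
        intro u
        rw [pow_succ', Matrix.mul_apply]
      simp only [e]
      calc ∑ u, (∑ v, M u v * (M ^ L) v x) ^ 2 ≤ lam ^ 2 * ∑ u, ((M ^ L) u x) ^ 2 :=
            step M lam hs h0 hl h (fun v => (M ^ L) v x)
        _ ≤ lam ^ 2 * (lam ^ L) ^ 2 := by gcongr
        _ = (lam ^ (L + 1)) ^ 2 := by ring
  have h1 : ((M ^ L) x x) ^ 2 ≤ (lam ^ L) ^ 2 :=
    (Finset.single_le_sum (f := fun u => ((M ^ L) u x) ^ 2) (fun u _ => sq_nonneg _)
      (Finset.mem_univ x)).trans (key L)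
  exact le_of_abs_le (abs_le_of_sq_le_sq h1 (by positivity))

end Pool.Agent.H590R2.RS
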