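import Pool.Agent.H590R2.RS.Defs

set_option autoImplicit false

namespace Pool.Agent.H590R2.RS

open Classical in
/-- walks inside `U` are counted by the powers of the restricted matrix -/
theorem C1_count {V : Type} [Fintype V] [DecidableEq V] (G : SimpleGraph V) (U : Set V) (x : V)
    (M : Matrix V V ℝ) (hM : ∀ u v, M u v = if G.Adj u v ∧ u ∈ U ∧ v ∈ U then 1 else 0) :
    ∀ (L : ℕ) (z : V), z ∈ U →
    ({l : List V | l.length = L ∧ isW G z l x ∧ ∀ y ∈ l, y ∈ U}.ncard : ℝ) ≤ (M ^ L) z x := by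
  intro L
  induction L with
  | zero =>
    intro z hz
    rw [pow_zero, Matrix.one_apply]
    have hsub : {l : List V | l.length = 0 ∧ isW G z l x ∧ ∀ y ∈ l, y ∈ U} ⊆
        (if z = x then {[]} else ∅) := by
      rintro l ⟨h1, h2, _⟩
      rw [List.length_eq_zero_iff] at h1
      subst h1
      have : z = x := h2
      rw [if_pos this]
      rfl
    split_ifs with hzx
    · rw [if_pos hzx] at hsub
      have := Set.ncard_le_ncard hsub (Set.finite_singleton _)
      rw [Set.ncard_singleton] at this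
      exact_mod_cast this
    · rw [if_neg hzx] at hsub
      have : {l : List V | l.length = 0 ∧ isW G z l x ∧ ∀ y ∈ l, y ∈ U} = ∅ :=
        Set.subset_empty_iff.1 hsub
      rw [this]
      simp
  | succ L ih =>
    intro z hz
    have hfin : ∀ a : V, {l : List V | l.length = L ∧ isW G a l x ∧ ∀ y ∈ l, y ∈ U}.Finite :=
      fun a => (List.finite_length_eq V L).subset fun l hl => hl.1
    have hsub : {l : List V | l.length = L + 1 ∧ isW G z l x ∧ ∀ y ∈ l, y ∈ U} ⊆
        ⋃ a ∈ (Finset.univ.filter fun a => G.Adj z a ∧ a ∈ U), (fun l => a :: l) ''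
          {l : List V | l.length = L ∧ isW G a l x ∧ ∀ y ∈ l, y ∈ U} := by
      rintro l ⟨h1, h2, h3⟩
      cases l with
      | nil => simp at h1
      | cons a l =>
        simp only [Set.mem_iUnion]
        refine ⟨a, ?_, l, ⟨by simpa using h1, h2.2, fun y hy => h3 y (List.mem_cons_of_mem _ hy)⟩,
          rfl⟩
        rw [Finset.mem_filter]
        exact ⟨Finset.mem_univ _, h2.1, h3 a List.mem_cons_self⟩
    have hfin2 : (⋃ a ∈ (Finset.univ.filter fun a => G.Adj z a ∧ a ∈ U), (fun l => a :: l) ''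
          {l : List V | l.length = L ∧ isW G a l x ∧ ∀ y ∈ l, y ∈ U}).Finite :=
      Set.Finite.biUnion (Finset.finite_toSet _) fun a _ => (hfin a).image _
    have h1 : ({l : List V | l.length = L + 1 ∧ isW G z l x ∧ ∀ y ∈ l, y ∈ U}.ncard : ℝ) ≤
        ∑ a ∈ (Finset.univ.filter fun a => G.Adj z a ∧ a ∈ U),
          ({l : List V | l.length = L ∧ isW G a l x ∧ ∀ y ∈ l, y ∈ U}.ncard : ℝ) := by
      have h2 := Set.ncard_le_ncard hsub hfin2
      have h3 := h2.trans (Finset.set_ncard_biUnion_le _ _)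
      have h4 : ∑ a ∈ (Finset.univ.filter fun a => G.Adj z a ∧ a ∈ U), ((fun l => a :: l) ''
          {l : List V | l.length = L ∧ isW G a l x ∧ ∀ y ∈ l, y ∈ U}).ncard ≤
          ∑ a ∈ (Finset.univ.filter fun a => G.Adj z a ∧ a ∈ U),
          {l : List V | l.length = L ∧ isW G a l x ∧ ∀ y ∈ l, y ∈ U}.ncard :=
        Finset.sum_le_sum fun a _ => Set.ncard_image_le (hfin a)
      exact_mod_cast h3.trans h4
    refine h1.trans ?_
    rw [pow_succ', Matrix.mul_apply, Finset.sum_filter]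
    apply Finset.sum_le_sum
    intro a _
    rw [hM]
    by_cases ha : G.Adj z a ∧ a ∈ U
    · rw [if_pos ha, if_pos ⟨ha.1, hz, ha.2⟩, one_mul]
      exact ih a ha.2
    · rw [if_neg ha, if_neg (fun h => ha ⟨h.1, h.2.2⟩), zero_mul]

theorem C1 (hC0 : S_C0) (hA3 : S_A3) (hA4 : S_A4) : S_C1 := by
  classical
  intro V _ _ G ρ L lam x hlam hloc
  set U : Set V := {y | Near G (2 * ρ) x y} with hU
  set M : Matrix V V ℝ := Matrix.of fun u v => if G.Adj u v ∧ u ∈ U ∧ v ∈ U then 1 else 0 with hM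
  have hMa : ∀ u v, M u v = if G.Adj u v ∧ u ∈ U ∧ v ∈ U then 1 else 0 := fun u v => rfl
  have hxU : x ∈ U := (hA4 V G 0 (2 * ρ) x x x).2.1 (hA4 V G 0 (2 * ρ) x x x).1 (Nat.zero_le _)
  have hsub : W G ρ 0 L x ⊆ {l : List V | l.length = L ∧ isW G x l x ∧ ∀ y ∈ l, y ∈ U} := by
    rintro l ⟨h1, h2, c, hc1, _, hc3⟩
    refine ⟨h1, h2, fun y hy => ?_⟩
    have h0 : cr c x l = 0 := by omega
    have h3 := (hA3 V x l).2.2.1 c h0
    have h4 : c y = c x := h3.1 y hy
    have h5 : Near G ρ y (c y) := hc1 y (List.mem_cons_of_mem _ hy)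
    have h6 : Near G ρ x (c x) := hc1 x List.mem_cons_self
    rw [h4] at h5
    have h7 : Near G ρ (c x) y := (hA4 V G ρ ρ y (c x) x).2.2.1 h5
    have h8 := (hA4 V G ρ ρ x (c x) y).2.2.2.1 h6 h7
    rw [hU, Set.mem_ofPred_eq, two_mul]
    exact h8
  have hfin : {l : List V | l.length = L ∧ isW G x l x ∧ ∀ y ∈ l, y ∈ U}.Finite :=
    (List.finite_length_eq V L).subset fun l hl => hl.1
  have h1 : ((W G ρ 0 L x).ncard : ℝ) ≤
      ({l : List V | l.length = L ∧ isW G x l x ∧ ∀ y ∈ l, y ∈ U}.ncard : ℝ) := by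
    exact_mod_cast Set.ncard_le_ncard hsub hfin
  refine h1.trans ((C1_count G U x M hMa L x hxU).trans ?_)
  refine hC0 V M lam ?_ ?_ hlam ?_ L x
  · ext u v
    rw [Matrix.transpose_apply, hMa, hMa]
    have : (G.Adj v u ∧ v ∈ U ∧ u ∈ U) ↔ (G.Adj u v ∧ u ∈ U ∧ v ∈ U) := by
      rw [G.adj_comm]
      tauto
    simp only [this]
  · intro u v
    rw [hMa]
    split_ifs <;> norm_num
  · intro f
    have h2 := hloc x (fun y => if y ∈ U then f y else 0) (fun y hy => by
      by_contra h
      exact hy (if_neg h))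
    have h3 : ∑ u, ∑ v, M u v * (f u * f v) = ∑ u, ∑ v, (if G.Adj u v then
        (if u ∈ U then f u else 0) * (if v ∈ U then f v else 0) else 0) := by
      refine Finset.sum_congr rfl fun u _ => Finset.sum_congr rfl fun v _ => ?_
      rw [hMa]
      by_cases ha : G.Adj u v <;> by_cases hu : u ∈ U <;> by_cases hv : v ∈ U <;>
        simp [ha, hu, hv]
    rw [h3]
    refine le_trans ?_ (h2.trans ?_)
    · apply le_of_eq
      refine Finset.sum_congr rfl fun u _ => Finset.sum_congr rfl fun v _ => ?_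
      congr
    · apply mul_le_mul_of_nonneg_left _ hlam
      apply Finset.sum_le_sum
      intro u _
      split_ifs
      · exact le_rfl
      · rw [zero_pow two_ne_zero]
        positivity

end Pool.Agent.H590R2.RS
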