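import Pool.Agent.H590R2.RS.Defs

namespace Pool.Agent.H590R2.RS

private theorem biU {ι α : Type*} (I : Finset ι) (S : ι → Set α) (M : ℝ)
    (hfin : ∀ i ∈ I, (S i).Finite) (h : ∀ i ∈ I, ((S i).ncard : ℝ) ≤ M) :
    (⋃ i ∈ I, S i).Finite ∧ ((⋃ i ∈ I, S i).ncard : ℝ) ≤ I.card * M := by
  classical
  induction I using Finset.induction_on with
  | empty => simp
  | insert i I hi ih =>
    have hih := ih (fun j hj => hfin j (Finset.mem_insert_of_mem hj))
      (fun j hj => h j (Finset.mem_insert_of_mem hj))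
    have e : (⋃ j ∈ insert i I, S j) = S i ∪ ⋃ j ∈ I, S j := by
      ext y; simp
    rw [e]
    refine ⟨(hfin i (Finset.mem_insert_self _ _)).union hih.1, ?_⟩
    have h1 : ((S i ∪ ⋃ j ∈ I, S j).ncard : ℝ) ≤ ((S i).ncard : ℝ) + ((⋃ j ∈ I, S j).ncard : ℝ) := by
      exact_mod_cast Set.ncard_union_le _ _
    have h2 := h i (Finset.mem_insert_self _ _)
    rw [Finset.card_insert_of_notMem hi]
    push_cast
    linarith [hih.2]

private theorem W_finite {V : Type} [Fintype V] [DecidableEq V] (G : SimpleGraph V) (ρ k L : ℕ)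
    (x : V) : (W G ρ k L x).Finite :=
  (List.finite_length_eq V L).subset (fun _ hl => hl.1)

theorem C2 (hBM : S_BM) (hC1 : S_C1) : S_C2 := by
  classical
  intro V _ _ G ρ K L0 d lam hlam hLB hdeg k
  have hlam0 : (0 : ℝ) ≤ lam := by linarith
  set B : ℝ := (((K + 1) * (d + 3) * (L0 + 1) ^ 4 : ℕ) : ℝ) with hB
  have hB1 : (1 : ℝ) ≤ B := by
    rw [hB]
    have : 1 ≤ (K + 1) * (d + 3) * (L0 + 1) ^ 4 := by
      apply Nat.succ_le_of_lt
      positivity
    exact_mod_cast this
  have hB0 : (0 : ℝ) ≤ B := by linarith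
  induction k using Nat.strong_induction_on with
  | _ k ih =>
    intro hk L hL x
    rcases k with _ | k
    · simpa using hC1 V G ρ L lam x hlam0 hLB
    · have hkK : k + 1 ≤ K := hk
      have hpow : ∀ j, j ≤ L → lam ^ (L - j) ≤ lam ^ L := fun j _ =>
        pow_le_pow_right₀ hlam (Nat.sub_le _ _)
      have hM0 : 0 ≤ B ^ k * lam ^ L := by positivity
      have hIH : ∀ L' ≤ L, ∀ y, ((W G ρ k L' y).ncard : ℝ) ≤ B ^ k * lam ^ L' := fun L' hL' y =>
        ih k (Nat.lt_succ_self k) (by omega) L' (by omega) y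
      -- the four families
      set M : ℝ := B ^ k * lam ^ L with hM
      have hWle : ∀ L' ≤ L, ∀ y, ((W G ρ k L' y).ncard : ℝ) ≤ M := by
        intro L' hL' y
        refine (hIH L' hL' y).trans ?_
        exact mul_le_mul_of_nonneg_left (pow_le_pow_right₀ hlam hL') (by positivity)
      -- first
      have h0 : ((W G ρ 0 L x).ncard : ℝ) ≤ M := by
        have := hC1 V G ρ L lam x hlam0 hLB
        refine this.trans ?_
        rw [hM]
        have : (1 : ℝ) ≤ B ^ k := one_le_pow₀ hB1
        nlinarith [pow_nonneg hlam0 L]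
      -- second
      set I1 : Finset ℕ := Finset.range (L + 1) with hI1
      set S2 : Set (List V) := ⋃ p ∈ I1 ×ˢ I1, decR x p.1 p.2 '' W G ρ k (L - 2) x with hS2
      have h2 : S2.Finite ∧ (S2.ncard : ℝ) ≤ ((I1 ×ˢ I1).card : ℝ) * M := by
        apply biU
        · intro p _; exact (W_finite G ρ k (L - 2) x).image _
        · intro p _
          have h1 : ((decR x p.1 p.2 '' W G ρ k (L - 2) x).ncard : ℝ) ≤
              ((W G ρ k (L - 2) x).ncard : ℝ) := by
            exact_mod_cast Set.ncard_image_le (W_finite G ρ k (L - 2) x)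
          exact h1.trans (hWle _ (Nat.sub_le _ _) _)
      -- third
      set S3 : Set (List V) := ⋃ p ∈ (I1 ×ˢ I1) ×ˢ (I1 ×ˢ I1),
        decJ x p.1.1 p.1.2 p.2.1 p.2.2 '' W G ρ k (L - 4) x with hS3
      have h3 : S3.Finite ∧ (S3.ncard : ℝ) ≤ (((I1 ×ˢ I1) ×ˢ (I1 ×ˢ I1)).card : ℝ) * M := by
        apply biU
        · intro p _; exact (W_finite G ρ k (L - 4) x).image _
        · intro p _
          have h1 : ((decJ x p.1.1 p.1.2 p.2.1 p.2.2 '' W G ρ k (L - 4) x).ncard : ℝ) ≤
              ((W G ρ k (L - 4) x).ncard : ℝ) := by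
            exact_mod_cast Set.ncard_image_le (W_finite G ρ k (L - 4) x)
          exact h1.trans (hWle _ (Nat.sub_le _ _) _)
      -- fourth
      set I2 : Finset (ℕ × ℕ × ℕ) := Finset.range (k + 1) ×ˢ
        ((Finset.range (L + 1)) ×ˢ (Finset.range (L + 1))) with hI2
      set T : ℕ × ℕ × ℕ → Set (List V) := fun p =>
        {l | ∃ k2 L2, p.1 + k2 = k ∧ p.2.1 + L2 + 2 = L ∧ ∃ l1 ∈ W G ρ p.1 p.2.1 x,
          ∃ w, ∃ β' ∈ W G ρ k2 L2 w, G.Adj (endp x (l1.take p.2.2)) w ∧
            l = decS x p.2.2 l1 w β'} with hT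
      have hTb : ∀ p ∈ I2, (T p).Finite ∧ ((T p).ncard : ℝ) ≤ (d : ℝ) * M := by
        rintro ⟨k1, L1, a⟩ hp
        by_cases hc : k1 ≤ k ∧ L1 + 2 ≤ L
        · obtain ⟨hk1, hL1⟩ := hc
          obtain ⟨k2, hk2⟩ := Nat.exists_eq_add_of_le hk1
          obtain ⟨L2, hL2⟩ := Nat.exists_eq_add_of_le hL1
          have hsub : T (k1, L1, a) ⊆ ⋃ l1 ∈ (W_finite G ρ k1 L1 x).toFinset,
              ⋃ w ∈ (Set.toFinite {w | G.Adj (endp x (l1.take a)) w}).toFinset,
                (fun β' => decS x a l1 w β') '' W G ρ k2 L2 w := by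
            rintro l ⟨k2', L2', hk', hL', l1, hl1, w, β', hβ, hadj, rfl⟩
            simp only at hk' hL' hl1 hadj
            have e1 : k2' = k2 := by omega
            have e2 : L2' = L2 := by omega
            subst e1 e2
            simp only [Set.mem_iUnion]
            refine ⟨l1, ?_, w, ?_, β', hβ, rfl⟩
            · simpa using hl1
            · simpa using hadj
          have hinner : ∀ l1 ∈ (W_finite G ρ k1 L1 x).toFinset,
              (⋃ w ∈ (Set.toFinite {w | G.Adj (endp x (l1.take a)) w}).toFinset,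
                (fun β' => decS x a l1 w β') '' W G ρ k2 L2 w).Finite ∧
              ((⋃ w ∈ (Set.toFinite {w | G.Adj (endp x (l1.take a)) w}).toFinset,
                (fun β' => decS x a l1 w β') '' W G ρ k2 L2 w).ncard : ℝ) ≤
                (d : ℝ) * (B ^ k2 * lam ^ L2) := by
            intro l1 _
            have hb := biU (Set.toFinite {w | G.Adj (endp x (l1.take a)) w}).toFinset
              (fun w => (fun β' => decS x a l1 w β') '' W G ρ k2 L2 w) (B ^ k2 * lam ^ L2)
              (fun w _ => (W_finite G ρ k2 L2 w).image _)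
              (fun w _ => by
                have h1 : (((fun β' => decS x a l1 w β') '' W G ρ k2 L2 w).ncard : ℝ) ≤
                    ((W G ρ k2 L2 w).ncard : ℝ) := by
                  exact_mod_cast Set.ncard_image_le (W_finite G ρ k2 L2 w)
                exact h1.trans (ih k2 (by omega) (by omega) L2 (by omega) w))
            refine ⟨hb.1, hb.2.trans ?_⟩
            apply mul_le_mul_of_nonneg_right _ (by positivity)
            rw [← Set.ncard_eq_toFinset_card _ (Set.toFinite {w | G.Adj (endp x (l1.take a)) w})]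
            exact_mod_cast hdeg _
          have houter := biU (W_finite G ρ k1 L1 x).toFinset
            (fun l1 => ⋃ w ∈ (Set.toFinite {w | G.Adj (endp x (l1.take a)) w}).toFinset,
                (fun β' => decS x a l1 w β') '' W G ρ k2 L2 w) ((d : ℝ) * (B ^ k2 * lam ^ L2))
            (fun l1 h => (hinner l1 h).1) (fun l1 h => (hinner l1 h).2)
          refine ⟨houter.1.subset hsub, ?_⟩
          have h1 : ((T (k1, L1, a)).ncard : ℝ) ≤ _ :=
            (Nat.cast_le (α := ℝ)).2 (Set.ncard_le_ncard hsub houter.1)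
          refine h1.trans (houter.2.trans ?_)
          rw [← Set.ncard_eq_toFinset_card _ (W_finite G ρ k1 L1 x)]
          have h4 : ((W G ρ k1 L1 x).ncard : ℝ) ≤ B ^ k1 * lam ^ L1 :=
            ih k1 (by omega) (by omega) L1 (by omega) x
          calc ((W G ρ k1 L1 x).ncard : ℝ) * ((d : ℝ) * (B ^ k2 * lam ^ L2))
              ≤ (B ^ k1 * lam ^ L1) * ((d : ℝ) * (B ^ k2 * lam ^ L2)) :=
                mul_le_mul_of_nonneg_right h4 (by positivity)
            _ = (d : ℝ) * (B ^ k * lam ^ (L1 + L2)) := by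
                rw [hk2, pow_add, pow_add]; ring
            _ ≤ (d : ℝ) * M := by
                rw [hM]
                apply mul_le_mul_of_nonneg_left _ (by positivity)
                apply mul_le_mul_of_nonneg_left _ (by positivity)
                exact pow_le_pow_right₀ hlam (by omega)
        · have hemp : T (k1, L1, a) = ∅ := by
            ext l
            simp only [Set.mem_empty_iff_false, iff_false]
            rintro ⟨k2', L2', hk', hL', -⟩
            simp only at hk' hL'
            exact hc ⟨by omega, by omega⟩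
          rw [hemp]
          simp only [Set.finite_empty, Set.ncard_empty, Nat.cast_zero, true_and]
          positivity
      set S4 : Set (List V) := ⋃ p ∈ I2, T p with hS4
      have h4 : S4.Finite ∧ (S4.ncard : ℝ) ≤ (I2.card : ℝ) * ((d : ℝ) * M) :=
        biU I2 T _ (fun p hp => (hTb p hp).1) (fun p hp => (hTb p hp).2)
      have hcover : W G ρ (k + 1) L x ⊆ W G ρ 0 L x ∪ (S2 ∪ (S3 ∪ S4)) := by
        intro l hl
        rcases hBM V G ρ k L x l hl with h | ⟨-, a, ha, b, hb, l', hl', rfl⟩ |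
          ⟨-, a, ha, b, hb, c, hc, e, he, l', hl', rfl⟩ |
          ⟨k1, k2, L1, L2, hk12, hL12, a, ha, l1, hl1, w, β', hβ, hadj, rfl⟩
        · exact Or.inl h
        · refine Or.inr (Or.inl ?_)
          rw [hS2]
          simp only [Set.mem_iUnion]
          refine ⟨(a, b), ?_, l', hl', rfl⟩
          simp only [hI1, Finset.mem_product, Finset.mem_range]
          omega
        · refine Or.inr (Or.inr (Or.inl ?_))
          rw [hS3]
          simp only [Set.mem_iUnion]
          refine ⟨((a, b), (c, e)), ?_, l', hl', rfl⟩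
          simp only [hI1, Finset.mem_product, Finset.mem_range]
          omega
        · refine Or.inr (Or.inr (Or.inr ?_))
          rw [hS4]
          simp only [Set.mem_iUnion]
          refine ⟨(k1, L1, a), ?_, ?_⟩
          · simp only [hI2, Finset.mem_product, Finset.mem_range]
            omega
          · exact ⟨k2, L2, hk12, hL12, l1, hl1, w, β', hβ, hadj, rfl⟩
      have hfinU : (W G ρ 0 L x ∪ (S2 ∪ (S3 ∪ S4))).Finite :=
        (W_finite G ρ 0 L x).union (h2.1.union (h3.1.union h4.1))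
      have hc1 : ((W G ρ (k + 1) L x).ncard : ℝ) ≤
          ((W G ρ 0 L x).ncard : ℝ) + ((S2.ncard : ℝ) + ((S3.ncard : ℝ) + (S4.ncard : ℝ))) := by
        have e1 := Set.ncard_le_ncard hcover hfinU
        have e2 := Set.ncard_union_le (W G ρ 0 L x) (S2 ∪ (S3 ∪ S4))
        have e3 := Set.ncard_union_le S2 (S3 ∪ S4)
        have e4 := Set.ncard_union_le S3 S4
        have : (W G ρ (k + 1) L x).ncard ≤
          (W G ρ 0 L x).ncard + (S2.ncard + (S3.ncard + S4.ncard)) := by omega
        exact_mod_cast this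
      have cI1 : (I1.card : ℝ) = (L : ℝ) + 1 := by
        rw [hI1, Finset.card_range]; push_cast; ring
      have c2 : (((I1 ×ˢ I1).card : ℕ) : ℝ) = ((L : ℝ) + 1) ^ 2 := by
        rw [Finset.card_product]; push_cast; rw [cI1]; ring
      have c3 : ((((I1 ×ˢ I1) ×ˢ (I1 ×ˢ I1)).card : ℕ) : ℝ) = ((L : ℝ) + 1) ^ 4 := by
        rw [Finset.card_product, Finset.card_product]; push_cast; rw [cI1]; ring
      have c4 : ((I2.card : ℕ) : ℝ) = ((k : ℝ) + 1) * ((L : ℝ) + 1) ^ 2 := by
        rw [hI2, Finset.card_product, Finset.card_product]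
        simp only [Finset.card_range]
        push_cast; ring
      rw [c2] at h2
      rw [c3] at h3
      rw [c4] at h4
      have hLr : (L : ℝ) ≤ L0 := by exact_mod_cast hL
      have hkr : (k : ℝ) + 1 ≤ K := by exact_mod_cast hkK
      have hL0' : (0 : ℝ) ≤ (L : ℝ) := Nat.cast_nonneg _
      have hd0 : (0 : ℝ) ≤ (d : ℝ) := Nat.cast_nonneg _
      have hk0 : (0 : ℝ) ≤ (k : ℝ) := Nat.cast_nonneg _
      have hP : ((L : ℝ) + 1) ^ 4 ≤ ((L0 : ℝ) + 1) ^ 4 := by
        apply pow_le_pow_left₀ (by positivity); linarith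
      have hP2 : ((L : ℝ) + 1) ^ 2 ≤ ((L0 : ℝ) + 1) ^ 4 := by
        have e1 : ((L : ℝ) + 1) ^ 2 ≤ ((L : ℝ) + 1) ^ 4 :=
          pow_le_pow_right₀ (by linarith) (by norm_num)
        linarith
      have hP1 : (1 : ℝ) ≤ ((L0 : ℝ) + 1) ^ 4 := one_le_pow₀ (by linarith)
      set P : ℝ := ((L0 : ℝ) + 1) ^ 4 with hPdef
      have hsum : ((W G ρ (k + 1) L x).ncard : ℝ) ≤ (1 + ((L : ℝ) + 1) ^ 2 + ((L : ℝ) + 1) ^ 4 +
          ((k : ℝ) + 1) * ((L : ℝ) + 1) ^ 2 * d) * M := by
        have := h2.2
        have := h3.2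
        have := h4.2
        nlinarith
      have hcoef : 1 + ((L : ℝ) + 1) ^ 2 + ((L : ℝ) + 1) ^ 4 +
          ((k : ℝ) + 1) * ((L : ℝ) + 1) ^ 2 * d ≤ B := by
        have hBe : B = ((K : ℝ) + 1) * (d + 3) * P := by
          rw [hB, hPdef]; push_cast; ring
        rw [hBe]
        have e1 : ((k : ℝ) + 1) * ((L : ℝ) + 1) ^ 2 * d ≤ (K : ℝ) * P * d := by
          apply mul_le_mul_of_nonneg_right _ hd0
          exact mul_le_mul hkr hP2 (by positivity) (by linarith)
        have e2 : 0 ≤ (K : ℝ) * P := by positivity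
        have e3 : 0 ≤ (d : ℝ) * P := by positivity
        nlinarith
      calc ((W G ρ (k + 1) L x).ncard : ℝ) ≤ _ := hsum
        _ ≤ B * M := mul_le_mul_of_nonneg_right hcoef hM0
        _ = B ^ (k + 1) * lam ^ L := by rw [hM]; ring

end Pool.Agent.H590R2.RS
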