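import Pool.Agent.H590R2.RS.Defs

namespace Pool.Agent.H590R2.RS

open Classical in
theorem D (hD1 : S_D1) (hD2 : S_D2) (hD3 : S_D3) (hA4 : S_A4) : S_D := by
  intro V G r x y l hr hw
  obtain ⟨T, hT1, hT2, hT3⟩ := hD1 V G r x y l hw
  obtain ⟨R, hR1, hR2, hR3⟩ := hD2 V G r x y l T hr hw
  set c : V → V := fun z => if h : ∃ s, s ∈ T ∧ Near G R (vt x l s) z then
    vt x l (Nat.find h) else z with hc
  have hex : ∀ t ≤ l.length, ∃ s, s ∈ T ∧ Near G R (vt x l s) (vt x l t) := by
    intro t ht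
    obtain ⟨s, hs, hn⟩ := hT3 t ht
    exact ⟨s, hs, (hA4 V G r R _ _ (vt x l t)).2.1 hn hR1⟩
  have hcz : ∀ z (h : ∃ s, s ∈ T ∧ Near G R (vt x l s) z), c z = vt x l (Nat.find h) := by
    intro z h
    simp only [hc, dif_pos h]
  refine ⟨c, ?_, ?_⟩
  · intro z hz
    obtain ⟨t, ht, rfl⟩ := (hD3 V c x l).2 z hz
    have h := hex t ht
    rw [hcz _ h]
    have h1 := (Nat.find_spec h).2
    have h2 := (hA4 V G R R _ _ (vt x l t)).2.2.1 h1
    exact (hA4 V G R (2 * r) _ _ (vt x l t)).2.1 h2 hR2.le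
  · have hcr := (hD3 V c x l).1
    have hle : cr c x l ≤ ((T ×ˢ Finset.range l.length).filter fun p =>
      ¬ (Near G R (vt x l p.1) (vt x l p.2) ↔ Near G R (vt x l p.1) (vt x l (p.2 + 1)))).card := by
      rw [hcr]
      have key : ∀ t ∈ (Finset.range l.length).filter
          (fun t => c (vt x l t) ≠ c (vt x l (t + 1))), ∃ s ∈ T,
          ¬ (Near G R (vt x l s) (vt x l t) ↔ Near G R (vt x l s) (vt x l (t + 1))) := by
        intro t ht
        rw [Finset.mem_filter, Finset.mem_range] at ht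
        obtain ⟨htl, hne⟩ := ht
        have h0 := hex t htl.le
        have h1 := hex (t + 1) htl
        rw [hcz _ h0, hcz _ h1] at hne
        have hs : Nat.find h0 ≠ Nat.find h1 := fun h => hne (by rw [h])
        rcases lt_or_gt_of_ne hs with h | h
        · refine ⟨Nat.find h0, (Nat.find_spec h0).1, fun hiff => ?_⟩
          exact Nat.find_min h1 h ⟨(Nat.find_spec h0).1, hiff.mp (Nat.find_spec h0).2⟩
        · refine ⟨Nat.find h1, (Nat.find_spec h1).1, fun hiff => ?_⟩
          exact Nat.find_min h0 h ⟨(Nat.find_spec h1).1, hiff.mpr (Nat.find_spec h1).2⟩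
      choose! g hg using key
      refine Finset.card_le_card_of_injOn (fun t => (g t, t)) ?_ ?_
      · intro t ht
        have h1 := hg t ht
        rw [Finset.mem_coe, Finset.mem_filter, Finset.mem_product]
        exact ⟨⟨h1.1, (Finset.mem_filter.mp ht).1⟩, h1.2⟩
      · intro t _ t' _ h
        exact (Prod.mk.inj h).2
    calc r * cr c x l ≤ _ := Nat.mul_le_mul_left r hle
      _ ≤ T.card * l.length := hR3
      _ ≤ (l.length / (r + 1) + 1) * l.length := Nat.mul_le_mul_right _ hT2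

end Pool.Agent.H590R2.RS
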