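import Pool.Agent.H590R2.RS.Defs

/-! Task D1: separated times. -/

namespace Pool.Agent.H590R2.RS

theorem D1 (hA1 : S_A1) : S_D1 := by
  intro V G r x y l h
  refine ⟨(Finset.range (l.length / (r + 1) + 1)).image (fun i => i * (r + 1)), ?_, ?_, ?_⟩
  · intro t ht
    rw [Finset.mem_image] at ht
    obtain ⟨i, hi, rfl⟩ := ht
    rw [Finset.mem_range] at hi
    have h1 : i ≤ l.length / (r + 1) := by omega
    calc i * (r + 1) ≤ l.length / (r + 1) * (r + 1) := Nat.mul_le_mul_right _ h1
      _ ≤ l.length := Nat.div_mul_le_self _ _
  · refine Finset.card_image_le.trans ?_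
    rw [Finset.card_range]
  · intro t ht
    have h1 : t / (r + 1) * (r + 1) ≤ t := Nat.div_mul_le_self _ _
    have h2 : t - t / (r + 1) * (r + 1) ≤ r := by
      have h3 := Nat.div_add_mod t (r + 1)
      have h4 : t % (r + 1) < r + 1 := Nat.mod_lt t (Nat.succ_pos r)
      rw [mul_comm] at h3
      omega
    obtain ⟨s, hs⟩ : ∃ s, s = t / (r + 1) * (r + 1) := ⟨_, rfl⟩
    rw [← hs] at h1 h2
    refine ⟨s, ?_, ?_⟩
    · rw [Finset.mem_image]
      refine ⟨t / (r + 1), ?_, hs.symm⟩
      rw [Finset.mem_range]
      have := Nat.div_le_div_right (c := r + 1) ht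
      omega
    · refine ⟨(l.drop s).take (t - s), ?_, ?_⟩
      · rw [List.length_take]
        exact (min_le_left _ _).trans h2
      · have e1 : isW G x (l.take s ++ l.drop s) y := by
          rw [List.take_append_drop]
          exact h
        have e2 := ((hA1 V G x y (l.take s) (l.drop s)).2.1.mp e1).2
        have e3 : isW G (endp x (l.take s)) ((l.drop s).take (t - s) ++ (l.drop s).drop (t - s)) y := by
          rw [List.take_append_drop]
          exact e2
        have e4 := ((hA1 V G (endp x (l.take s)) y ((l.drop s).take (t - s))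
          ((l.drop s).drop (t - s))).2.1.mp e3).1
        have e5 : endp (endp x (l.take s)) ((l.drop s).take (t - s)) = vt x l t := by
          rw [← (hA1 V G x y (l.take s) ((l.drop s).take (t - s))).2.2.1, ← List.take_add]
          unfold vt
          congr 2
          omega
        rw [e5] at e4
        exact e4

end Pool.Agent.H590R2.RS
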