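import Pool.Agent.H590R2.RS.Defs

namespace Pool.Agent.H590R2.RS

theorem D3_vt_zero {V : Type} (x : V) (l : List V) : vt x l 0 = x := by
  simp [vt, endp]

theorem D3_vt_succ {V : Type} (x a : V) (l : List V) (t : ℕ) :
    vt x (a :: l) (t + 1) = vt a l t := by
  simp [vt, endp]

theorem D3_vt_one {V : Type} (x a : V) (l : List V) :
    vt x (a :: l) 1 = a := by
  simp [vt, endp]

theorem D3 : S_D3 := by
  classical
  intro V c x l
  induction l generalizing x with
  | nil =>
    refine ⟨by simp [cr], ?_⟩
    intro z hz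
    refine ⟨0, le_rfl, ?_⟩
    rw [D3_vt_zero]
    simpa using hz
  | cons a l ih =>
    obtain ⟨h1, h2⟩ := ih a
    constructor
    · rw [cr, h1, Finset.card_filter, Finset.card_filter, List.length_cons,
        Finset.sum_range_succ']
      simp only [D3_vt_succ, D3_vt_zero, zero_add, D3_vt_one]
      rw [add_comm]
      congr 1
      by_cases h : c x = c a <;> simp [h]
    · intro z hz
      rcases List.mem_cons.1 hz with rfl | hz
      · exact ⟨0, Nat.zero_le _, (D3_vt_zero _ _).symm⟩
      · obtain ⟨t, ht, e⟩ := h2 z hz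
        exact ⟨t + 1, by simpa using ht, by rw [D3_vt_succ]; exact e⟩

end Pool.Agent.H590R2.RS
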