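import Mathlib

/-!
Random signings: definitions and exact statements (Props `S_...`) of all tasks.
Walks are lists of the vertices visited AFTER the starting vertex.
-/

namespace Pool.Agent.H590R2.RS

/-- `isW G x l y`: starting at `x` and visiting the vertices of `l` one after the other is a walk
in `G` that ends at `y`. -/
def isW {V : Type} (G : SimpleGraph V) : V → List V → V → Prop
  | x, [], y => x = y
  | x, a :: l, y => G.Adj x a ∧ isW G a l y

/-- the list of (undirected) steps of the walk that starts at `x` and visits `l` -/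
def edg {V : Type} : V → List V → List (Sym2 V)
  | _, [] => []
  | x, a :: l => s(x, a) :: edg a l

/-- the end of the walk that starts at `x` and visits `l` -/
def endp {V : Type} : V → List V → V
  | x, [] => x
  | _, a :: l => endp a l

/-- the reversed walk (it starts at `endp x l` and ends at `x`) -/
def rev {V : Type} : V → List V → List V
  | _, [] => []
  | x, a :: l => rev a l ++ [x]

open Classical in
/-- number of steps of the walk `x, l` whose two ends have different labels -/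
noncomputable def cr {V : Type} (c : V → V) : V → List V → ℕ
  | _, [] => 0
  | x, a :: l => (if c x = c a then 0 else 1) + cr c a l

/-- `y` can be reached from `x` by a walk with at most `ρ` steps -/
def Near {V : Type} (G : SimpleGraph V) (ρ : ℕ) (x y : V) : Prop :=
  ∃ l : List V, l.length ≤ ρ ∧ isW G x l y

/-- every edge whose ends have different labels is traversed an even number of times -/
def Ev {V : Type} [DecidableEq V] (c : V → V) (x : V) (l : List V) : Prop :=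
  ∀ u v : V, c u ≠ c v → Even ((edg x l).count s(u, v))

/-- closed walks at `x` with `L` steps for which there is a labelling `c : V → V` such that every
visited vertex is near its label, every crossing edge is used an even number of times, and there
are at most `k` crossing steps -/
def W {V : Type} [DecidableEq V] (G : SimpleGraph V) (ρ k L : ℕ) (x : V) : Set (List V) :=
  {l | l.length = L ∧ isW G x l x ∧ ∃ c : V → V, (∀ y ∈ x :: l, Near G ρ y (c y)) ∧
    Ev c x l ∧ cr c x l ≤ k}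

/-- first inverse surgery (a reversal) -/
def decR {V : Type} (x : V) (a b : ℕ) (l : List V) : List V :=
  l.take a ++ endp (endp x (l.take a)) ((l.drop a).take b) ::
    (rev (endp x (l.take a)) ((l.drop a).take b) ++
      endp (endp x (l.take a)) ((l.drop a).take b) :: (l.drop a).drop b)

/-- the walk `α, u→v, β1, p→q, β2, v→u, γ1, q→p, γ2` (from `x`), where
`α : x ⇝ u`, `γ1 : u ⇝ q`, `β2 : q ⇝ v`, `β1 : v ⇝ p`, `γ2 : p ⇝ x` -/
def joinJ {V : Type} (x : V) (α γ1 β2 β1 γ2 : List V) : List V :=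
  α ++ endp x (α ++ γ1 ++ β2) :: (β1 ++ endp x (α ++ γ1) :: (β2 ++ endp x α ::
    (γ1 ++ endp x (α ++ γ1 ++ β2 ++ β1) :: γ2)))

/-- second inverse surgery: cut `l` in five pieces at positions `a, a+b, a+b+c, a+b+c+d` -/
def decJ {V : Type} (x : V) (a b c d : ℕ) (l : List V) : List V :=
  joinJ x (l.take a) ((l.drop a).take b) (((l.drop a).drop b).take c)
    ((((l.drop a).drop b).drop c).take d) ((((l.drop a).drop b).drop c).drop d)

/-- third inverse surgery: insert the closed walk `β` at `v` after the first `a` steps of `l` -/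
def decS {V : Type} (x : V) (a : ℕ) (l : List V) (v : V) (β : List V) : List V :=
  l.take a ++ v :: (β ++ endp x (l.take a) :: l.drop a)

open Classical in
/-- the quadratic form of the adjacency matrix restricted to any ball of radius `R` is at most
`lam` -/
def LocalBound {V : Type} [Fintype V] (G : SimpleGraph V) (R : ℕ) (lam : ℝ) : Prop :=
  ∀ x : V, ∀ f : V → ℝ, (∀ y, f y ≠ 0 → Near G R x y) →
    ∑ u, ∑ v, (if G.Adj u v then f u * f v else 0) ≤ lam * ∑ u, f u ^ 2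

open Classical in
/-- the sign (`1` or `-1`) of an edge in the signing `σ`, and `0` for a pair that is no edge -/
noncomputable def sgn {V : Type} (G : SimpleGraph V) (σ : G.edgeSet → Bool) (e : Sym2 V) : ℝ :=
  if h : e ∈ G.edgeSet then (if σ ⟨e, h⟩ then 1 else -1) else 0

/-- the signed adjacency matrix of the signing `σ` -/
noncomputable def SM {V : Type} (G : SimpleGraph V) (σ : G.edgeSet → Bool) : Matrix V V ℝ :=
  Matrix.of fun u v => sgn G σ s(u, v)

/-- all lists of length `L` -/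
def LL (V : Type) [Fintype V] [DecidableEq V] : ℕ → Finset (List V)
  | 0 => {[]}
  | n + 1 => Finset.univ.biUnion fun a => (LL V n).image fun l => a :: l

/-- the vertex of the walk `x, l` at time `t` -/
def vt {V : Type} (x : V) (l : List V) (t : ℕ) : V := endp x (l.take t)

open Classical in
/-- Ramanujan graph (connected, `d`-regular, all eigenvalues other than `±d` have absolute value at
most `2 √(d-1)`) -/
def Ramanujan {V : Type} [Fintype V] [DecidableEq V] (G : SimpleGraph V) (d : ℕ) : Prop :=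
  G.Connected ∧ G.IsRegularOfDegree d ∧
    ∀ μ ∈ spectrum ℝ (G.adjMatrix ℝ), |μ| ≠ d → |μ| ≤ 2 * √((d : ℝ) - 1)

/-! ### the tasks -/

/-- A1: concatenation -/
def S_A1 : Prop := ∀ (V : Type) (G : SimpleGraph V) (x y : V) (l m : List V),
  (isW G x l y → endp x l = y) ∧
  (isW G x (l ++ m) y ↔ isW G x l (endp x l) ∧ isW G (endp x l) m y) ∧
  endp x (l ++ m) = endp (endp x l) m ∧
  edg x (l ++ m) = edg x l ++ edg (endp x l) m ∧
  (∀ c : V → V, cr c x (l ++ m) = cr c x l + cr c (endp x l) m)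

/-- A2: reversal -/
def S_A2 : Prop := ∀ (V : Type) [DecidableEq V] (G : SimpleGraph V) (x y : V) (l : List V),
  (rev x l).length = l.length ∧
  (isW G x l y → isW G y (rev x l) x) ∧
  endp (endp x l) (rev x l) = x ∧
  rev (endp x l) (rev x l) = l ∧
  (∀ e, (edg (endp x l) (rev x l)).count e = (edg x l).count e) ∧
  (∀ c : V → V, cr c (endp x l) (rev x l) = cr c x l) ∧
  (∀ z, z ∈ endp x l :: rev x l ↔ z ∈ x :: l)

/-- A3: splitting at an edge, splitting at the first crossing step -/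
def S_A3 : Prop := ∀ (V : Type) [DecidableEq V] (x : V) (l : List V),
  (∀ e ∈ edg x l, ∃ α b γ, l = α ++ b :: γ ∧ s(endp x α, b) = e) ∧
  (∀ c : V → V, cr c x l ≠ 0 → ∃ α b γ, l = α ++ b :: γ ∧ cr c x α = 0 ∧ c (endp x α) ≠ c b) ∧
  (∀ c : V → V, cr c x l = 0 → (∀ y ∈ l, c y = c x) ∧
    ∀ u v, c u ≠ c v → (edg x l).count s(u, v) = 0) ∧
  (∀ c : V → V, ∀ u v, c u ≠ c v → (edg x l).count s(u, v) ≤ cr c x l)

/-- A4: the relation `Near` -/
def S_A4 : Prop := ∀ (V : Type) (G : SimpleGraph V) (a b : ℕ) (x y z : V),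
  Near G 0 x x ∧ (Near G a x y → a ≤ b → Near G b x y) ∧ (Near G a x y → Near G a y x) ∧
  (Near G a x y → Near G b y z → Near G (a + b) x z) ∧ (Near G a x y → G.Adj y z →
    Near G (a + 1) x z)

/-- B0: the three cases. -/
def S_B0 : Prop := ∀ (V : Type) [DecidableEq V] (c : V → V) (x : V) (l : List V),
  Ev c x l → cr c x l ≠ 0 →
  (∃ α v β γ, l = α ++ v :: (β ++ v :: γ) ∧ endp v β = endp x α ∧ c (endp x α) ≠ c v) ∨
  (∃ α v β1 q β2 γ1 γ2, l = α ++ v :: (β1 ++ q :: (β2 ++ endp x α ::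
      (γ1 ++ endp v β1 :: γ2))) ∧ endp q β2 = v ∧ endp (endp x α) γ1 = q ∧
      c (endp x α) ≠ c v ∧ c (endp v β1) ≠ c q) ∨
  (∃ α v β γ, l = α ++ v :: (β ++ endp x α :: γ) ∧ endp v β = v ∧ c (endp x α) ≠ c v ∧
      Ev c v β ∧ Ev c x (α ++ γ))

/-- BR: reversal surgery -/
def S_BR : Prop := ∀ (V : Type) [DecidableEq V] (G : SimpleGraph V) (ρ k L : ℕ) (x : V)
    (c : V → V) (α β γ : List V) (v : V) (l : List V),
  l = α ++ v :: (β ++ v :: γ) → isW G x l x → endp v β = endp x α → c (endp x α) ≠ c v →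
  l.length = L → (∀ y ∈ x :: l, Near G ρ y (c y)) → Ev c x l → cr c x l ≤ k + 1 →
  2 ≤ L ∧ ∃ l' ∈ W G ρ k (L - 2) x, l = decR x α.length β.length l'

/-- BJ: double surgery -/
def S_BJ : Prop := ∀ (V : Type) [DecidableEq V] (G : SimpleGraph V) (ρ k L : ℕ) (x : V)
    (c : V → V) (α β1 β2 γ1 γ2 : List V) (v q : V) (l : List V),
  l = α ++ v :: (β1 ++ q :: (β2 ++ endp x α :: (γ1 ++ endp v β1 :: γ2))) →
  isW G x l x → endp q β2 = v → endp (endp x α) γ1 = q →
  c (endp x α) ≠ c v → c (endp v β1) ≠ c q → l.length = L →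
  (∀ y ∈ x :: l, Near G ρ y (c y)) → Ev c x l → cr c x l ≤ k + 1 →
  4 ≤ L ∧ ∃ l' ∈ W G ρ k (L - 4) x,
    l = decJ x α.length γ1.length β2.length β1.length l'

/-- BS: splitting surgery -/
def S_BS : Prop := ∀ (V : Type) [DecidableEq V] (G : SimpleGraph V) (ρ k L : ℕ) (x : V)
    (c : V → V) (α β γ : List V) (v : V) (l : List V),
  l = α ++ v :: (β ++ endp x α :: γ) → isW G x l x → endp v β = v → c (endp x α) ≠ c v →
  l.length = L → (∀ y ∈ x :: l, Near G ρ y (c y)) → Ev c v β → Ev c x (α ++ γ) →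
  cr c x l ≤ k + 1 →
  ∃ k1 k2 L1 L2, k1 + k2 = k ∧ L1 + L2 + 2 = L ∧ ∃ l1 ∈ W G ρ k1 L1 x, ∃ w, ∃ β' ∈ W G ρ k2 L2 w,
    G.Adj (endp x (l1.take α.length)) w ∧ l = decS x α.length l1 w β'

/-- BM: the structure lemma (from B0, BR, BJ, BS) -/
def S_BM : Prop := ∀ (V : Type) [DecidableEq V] (G : SimpleGraph V) (ρ k L : ℕ) (x : V)
    (l : List V), l ∈ W G ρ (k + 1) L x →
  l ∈ W G ρ 0 L x ∨
  (2 ≤ L ∧ ∃ a ≤ L, ∃ b ≤ L, ∃ l' ∈ W G ρ k (L - 2) x, l = decR x a b l') ∨
  (4 ≤ L ∧ ∃ a ≤ L, ∃ b ≤ L, ∃ c ≤ L, ∃ d ≤ L, ∃ l' ∈ W G ρ k (L - 4) x, l = decJ x a b c d l') ∨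
  (∃ k1 k2 L1 L2, k1 + k2 = k ∧ L1 + L2 + 2 = L ∧ ∃ a ≤ L, ∃ l1 ∈ W G ρ k1 L1 x,
    ∃ w, ∃ β' ∈ W G ρ k2 L2 w, G.Adj (endp x (l1.take a)) w ∧ l = decS x a l1 w β')

/-- C0: diagonal entries of powers -/
def S_C0 : Prop := ∀ (V : Type) [Fintype V] [DecidableEq V] (M : Matrix V V ℝ) (lam : ℝ),
  M.transpose = M → (∀ u v, 0 ≤ M u v) → 0 ≤ lam →
  (∀ f : V → ℝ, ∑ u, ∑ v, M u v * (f u * f v) ≤ lam * ∑ u, f u ^ 2) →
  ∀ (L : ℕ) (x : V), (M ^ L) x x ≤ lam ^ L

/-- C1: closed walks inside a ball (from C0, A3, A4) -/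
def S_C1 : Prop := ∀ (V : Type) [Fintype V] [DecidableEq V] (G : SimpleGraph V) (ρ L : ℕ)
    (lam : ℝ) (x : V), 0 ≤ lam → LocalBound G (2 * ρ) lam →
  ((W G ρ 0 L x).ncard : ℝ) ≤ lam ^ L

/-- C2: the counting induction (from BM and C1) -/
def S_C2 : Prop := ∀ (V : Type) [Fintype V] [DecidableEq V] (G : SimpleGraph V) (ρ K L0 d : ℕ)
    (lam : ℝ), 1 ≤ lam → LocalBound G (2 * ρ) lam →
  (∀ u, {w | G.Adj u w}.ncard ≤ d) →
  ∀ k ≤ K, ∀ L ≤ L0, ∀ x : V,
  ((W G ρ k L x).ncard : ℝ) ≤ (((K + 1) * (d + 3) * (L0 + 1) ^ 4 : ℕ) : ℝ) ^ k * lam ^ L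

/-- D1: separated times -/
def S_D1 : Prop := ∀ (V : Type) (G : SimpleGraph V) (r : ℕ) (x y : V) (l : List V),
  isW G x l y → ∃ T : Finset ℕ, (∀ t ∈ T, t ≤ l.length) ∧ T.card ≤ l.length / (r + 1) + 1 ∧
    ∀ t ≤ l.length, ∃ s ∈ T, Near G r (vt x l s) (vt x l t)

open Classical in
/-- D2: a good radius -/
def S_D2 : Prop := ∀ (V : Type) (G : SimpleGraph V) (r : ℕ) (x y : V) (l : List V) (T : Finset ℕ),
  1 ≤ r → isW G x l y → ∃ R, r ≤ R ∧ R < 2 * r ∧
    r * ((T ×ˢ Finset.range l.length).filter fun p =>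
      ¬ (Near G R (vt x l p.1) (vt x l p.2) ↔ Near G R (vt x l p.1) (vt x l (p.2 + 1)))).card ≤
      T.card * l.length

open Classical in
/-- D3: crossing steps as a cardinality -/
def S_D3 : Prop := ∀ (V : Type) (c : V → V) (x : V) (l : List V),
  cr c x l = ((Finset.range l.length).filter fun t => c (vt x l t) ≠ c (vt x l (t + 1))).card ∧
  (∀ z ∈ x :: l, ∃ t ≤ l.length, z = vt x l t)

/-- D: every walk has a local labelling with few crossing steps (from D1, D2, D3, A4) -/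
def S_D : Prop := ∀ (V : Type) (G : SimpleGraph V) (r : ℕ) (x y : V) (l : List V),
  1 ≤ r → isW G x l y →
  ∃ c : V → V, (∀ z ∈ x :: l, Near G (2 * r) z (c z)) ∧
    r * cr c x l ≤ (l.length / (r + 1) + 1) * l.length

open Classical in
/-- E1: powers of a signed adjacency matrix -/
def S_E1 : Prop := ∀ (V : Type) [Fintype V] [DecidableEq V] (G : SimpleGraph V)
    (σ : G.edgeSet → Bool) (L : ℕ) (x y : V),
  (SM G σ ^ L) x y = ∑ l ∈ LL V L, if endp x l = y then ((edg x l).map (sgn G σ)).prod else 0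

open Classical in
/-- E2: averages of products of signs -/
def S_E2 : Prop := ∀ (V : Type) [Fintype V] [DecidableEq V] (G : SimpleGraph V)
    (es : List (Sym2 V)),
  ∑ σ : G.edgeSet → Bool, (es.map (sgn G σ)).prod ≤
    if (∀ e ∈ es, e ∈ G.edgeSet) ∧ ∀ e, Even (es.count e) then
      (Fintype.card (G.edgeSet → Bool) : ℝ) else 0

open Classical in
/-- E: trace method (from E1, E2) -/
def S_E : Prop := ∀ (V : Type) [Fintype V] [DecidableEq V] (G : SimpleGraph V) (L : ℕ),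
  ∑ σ : G.edgeSet → Bool, Matrix.trace (SM G σ ^ L) ≤
    (Fintype.card (G.edgeSet → Bool) : ℝ) *
      ∑ x : V, ({l : List V | l.length = L ∧ isW G x l x ∧
        ∀ e, Even ((edg x l).count e)}.ncard : ℝ)

open Classical in
/-- F: Markov inequality -/
def S_F : Prop := ∀ (V : Type) [Fintype V] [DecidableEq V] (G : SimpleGraph V) (L : ℕ)
    (θ : ℝ), Even L → 0 ≤ θ →
  ((Finset.univ.filter fun σ : G.edgeSet → Bool => ∃ μ ∈ spectrum ℝ (SM G σ), θ ≤ |μ|).card : ℝ)
    * θ ^ L ≤ ∑ σ : G.edgeSet → Bool, Matrix.trace (SM G σ ^ L)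

open Classical in
/-- GEN: the general local-to-global theorem (from C2, D, E, F) -/
def S_GEN : Prop := ∀ (V : Type) [Fintype V] [DecidableEq V] (G : SimpleGraph V)
    (r K L d : ℕ) (lam θ : ℝ), 1 ≤ r → Even L → 1 ≤ lam → 0 ≤ θ →
  LocalBound G (4 * r) lam → (∀ u, {w | G.Adj u w}.ncard ≤ d) →
  (L / (r + 1) + 1) * L ≤ r * K →
  ((Finset.univ.filter fun σ : G.edgeSet → Bool => ∃ μ ∈ spectrum ℝ (SM G σ), θ ≤ |μ|).card : ℝ)
    * θ ^ L ≤ (Fintype.card (G.edgeSet → Bool) : ℝ) * (Fintype.card V : ℝ) *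
      ((((K + 1) * (d + 3) * (L + 1) ^ 4 : ℕ) : ℝ) ^ K * lam ^ L)

/-- G1: size of balls -/
def S_G1 : Prop := ∀ (V : Type) [Fintype V] (G : SimpleGraph V) (d : ℕ), 2 ≤ d →
  (∀ u, {w | G.Adj u w}.ncard ≤ d) → ∀ (R : ℕ) (x : V),
  {y | Near G R x y}.ncard ≤ d ^ (R + 1)

open Classical in
/-- G0: eigenvectors of a connected regular graph for the eigenvalue `d` are constant -/
def S_G0 : Prop := ∀ (V : Type) [Fintype V] [DecidableEq V] (G : SimpleGraph V) (d : ℕ),
  G.Connected → G.IsRegularOfDegree d → ∀ f : V → ℝ,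
  (∀ u, ∑ v, (if G.Adj u v then f v else 0) = d * f u) → ∀ u v, f u = f v

open Classical in
/-- G2: quadratic form of a Ramanujan graph on small sets (from G0) -/
def S_G2 : Prop := ∀ (V : Type) [Fintype V] [DecidableEq V] (G : SimpleGraph V) (d : ℕ), 3 ≤ d →
  Ramanujan G d → ∀ (N : ℕ) (U : Set V), U.ncard ≤ N → ∀ f : V → ℝ, (∀ y, f y ≠ 0 → y ∈ U) →
  ∑ u, ∑ v, (if G.Adj u v then f u * f v else 0) ≤
    (2 * √((d : ℝ) - 1) + (d : ℝ) * (N : ℝ) / (Fintype.card V : ℝ)) * ∑ u, f u ^ 2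

/-- G3: local bound for Ramanujan graphs, and degrees (from G1, G2) -/
def S_G3 : Prop := ∀ (V : Type) [Fintype V] [DecidableEq V] (G : SimpleGraph V) (d : ℕ), 3 ≤ d →
  Ramanujan G d → (∀ u, {w | G.Adj u w}.ncard ≤ d) ∧ ∀ R : ℕ,
  LocalBound G R (2 * √((d : ℝ) - 1) + (d : ℝ) ^ (R + 2) / (Fintype.card V : ℝ))

/-- H: the asymptotics. -/
def S_H : Prop := ∀ (d : ℕ) (θ lam ε : ℝ), 3 ≤ d → 1 ≤ lam → lam < θ → 0 < ε →
  ∃ J : ℕ, 1 ≤ J ∧ ∃ r0 : ℕ, ∀ r : ℕ, r0 ≤ r → ∀ n : ℕ, n ≤ d ^ (20 * (r + 1)) →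
  (n : ℝ) * ((((2 * J * (2 * J + 1) + 1) * (d + 3) * (2 * J * r + 1) ^ 4 : ℕ) : ℝ) ^
      (2 * J * (2 * J + 1)) * lam ^ (2 * J * r)) ≤ ε * θ ^ (2 * J * r)

open Classical in
/-- LG: local-to-global theorem in its asymptotic form (from GEN, H): random signings of any graph
with degrees at most `d` and `n ≥ n0` vertices, `n < d^(20(r+1))`, with `LocalBound G (4r) lam`. -/
def S_LG : Prop := ∀ (d : ℕ) (θ lam ε : ℝ), 3 ≤ d → 1 ≤ lam → lam < θ → 0 < ε →
  ∃ n0 : ℕ, ∀ (V : Type) [Fintype V] [DecidableEq V] (G : SimpleGraph V),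
  n0 ≤ Fintype.card V → (∀ u, {w | G.Adj u w}.ncard ≤ d) →
  LocalBound G (4 * (Nat.log d (Fintype.card V) / 20)) lam →
  1 - ε ≤ ((Finset.univ.filter fun σ : G.edgeSet → Bool =>
      ∀ μ ∈ spectrum ℝ (SM G σ), |μ| < θ).card : ℝ) /
    (Fintype.card (G.edgeSet → Bool) : ℝ)

open Classical in
/-- MAIN (from LG, G3) -/
def S_MAIN : Prop := ∀ (d : ℕ), 3 ≤ d → ∀ ε : ℝ, 0 < ε → ∃ n0 : ℕ, ∀ (V : Type) [Fintype V]
    [DecidableEq V] (G : SimpleGraph V), n0 ≤ Fintype.card V → Ramanujan G d →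
  1 - ε ≤ ((Finset.univ.filter fun σ : G.edgeSet → Bool =>
      ∀ μ ∈ spectrum ℝ (SM G σ), |μ| < 2 * √((d : ℝ) - 1) + ε).card : ℝ) /
    (Fintype.card (G.edgeSet → Bool) : ℝ)

end Pool.Agent.H590R2.RS
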