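import Pool.Agent.H590R2.RS.Defs

/-! Task E: the trace method. -/

namespace Pool.Agent.H590R2.RS

theorem E_mem_LL {V : Type} [Fintype V] [DecidableEq V] (L : ℕ) (l : List V) :
    l ∈ LL V L ↔ l.length = L := by
  induction L generalizing l with
  | zero => simp [LL, List.length_eq_zero_iff]
  | succ n ih =>
    simp only [LL, Finset.mem_biUnion, Finset.mem_univ, true_and, Finset.mem_image]
    constructor
    · rintro ⟨a, m, hm, rfl⟩
      simp [(ih m).1 hm]
    · intro h
      cases l with
      | nil => simp at h
      | cons a m => exact ⟨a, m, (ih m).2 (by simpa using h), rfl⟩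

theorem E_isW {V : Type} (G : SimpleGraph V) (x y : V) (l : List V) (h1 : endp x l = y)
    (h2 : ∀ e ∈ edg x l, e ∈ G.edgeSet) : isW G x l y := by
  induction l generalizing x with
  | nil => exact h1
  | cons a l ih =>
    refine ⟨?_, ih a h1 fun e he => h2 e ?_⟩
    · have := h2 s(x, a) (by simp [edg])
      simpa using this
    · simp only [edg, List.mem_cons]
      exact Or.inr he

open Classical in
theorem E (hE1 : S_E1) (hE2 : S_E2) : S_E := by
  intro V _ _ G L
  have h1 : ∑ σ : G.edgeSet → Bool, Matrix.trace (SM G σ ^ L) =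
      ∑ x : V, ∑ l ∈ LL V L, ∑ σ : G.edgeSet → Bool,
        (if endp x l = x then ((edg x l).map (sgn G σ)).prod else 0) := by
    have h2 : ∀ σ : G.edgeSet → Bool, Matrix.trace (SM G σ ^ L) =
        ∑ x : V, ∑ l ∈ LL V L, (if endp x l = x then ((edg x l).map (sgn G σ)).prod else 0) := by
      intro σ
      rw [Matrix.trace]
      apply Finset.sum_congr rfl
      intro x _
      rw [Matrix.diag_apply, hE1 V G σ L x x]
    rw [Finset.sum_congr rfl fun σ _ => h2 σ, Finset.sum_comm]
    apply Finset.sum_congr rfl
    intro x _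
    rw [Finset.sum_comm]
  rw [h1, Finset.mul_sum]
  apply Finset.sum_le_sum
  intro x _
  set P : List V → Prop := fun l => endp x l = x ∧ (∀ e ∈ edg x l, e ∈ G.edgeSet) ∧
    ∀ e, Even ((edg x l).count e) with hP
  have h3 : ∀ l ∈ LL V L, ∑ σ : G.edgeSet → Bool,
      (if endp x l = x then ((edg x l).map (sgn G σ)).prod else 0) ≤
      if P l then (Fintype.card (G.edgeSet → Bool) : ℝ) else 0 := by
    intro l _
    by_cases hx : endp x l = x
    · simp only [hx, if_true]
      refine (hE2 V G (edg x l)).trans ?_
      by_cases h4 : (∀ e ∈ edg x l, e ∈ G.edgeSet) ∧ ∀ e, Even ((edg x l).count e)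
      · rw [if_pos h4, if_pos (show P l from ⟨hx, h4⟩)]
      · rw [if_neg h4]
        split_ifs
        · positivity
        · exact le_rfl
    · simp only [hx, if_false, Finset.sum_const_zero]
      split_ifs
      · positivity
      · exact le_rfl
  refine (Finset.sum_le_sum h3).trans ?_
  rw [← Finset.sum_filter, Finset.sum_const, nsmul_eq_mul, mul_comm]
  apply mul_le_mul_of_nonneg_left _ (by positivity)
  have h5 : ((LL V L).filter P).card ≤ {l : List V | l.length = L ∧ isW G x l x ∧
        ∀ e, Even ((edg x l).count e)}.ncard := by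
    rw [← Set.ncard_coe_finset]
    apply Set.ncard_le_ncard
    · intro l hl
      rw [Finset.mem_coe, Finset.mem_filter] at hl
      exact ⟨(E_mem_LL L l).1 hl.1, E_isW G x x l hl.2.1 hl.2.2.1, hl.2.2.2⟩
    · apply (LL V L).finite_toSet.subset
      intro l hl
      rw [Finset.mem_coe]
      exact (E_mem_LL L l).2 hl.1
  exact_mod_cast h5

end Pool.Agent.H590R2.RS
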