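import Pool.Agent.H590R2.RS.Defs

/-! Task E1: powers of a signed adjacency matrix. -/

namespace Pool.Agent.H590R2.RS

theorem E1_sum {V : Type} [Fintype V] [DecidableEq V] (n : ℕ) (F : List V → ℝ) :
    ∑ l ∈ LL V (n + 1), F l = ∑ a : V, ∑ l ∈ LL V n, F (a :: l) := by
  rw [LL, Finset.sum_biUnion]
  · refine Finset.sum_congr rfl (fun a _ => ?_)
    rw [Finset.sum_image]
    intro l _ l' _ h
    exact (List.cons.inj h).2
  · intro a _ b _ hab
    rw [Function.onFun, Finset.disjoint_left]
    intro l h1 h2
    rw [Finset.mem_image] at h1 h2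
    obtain ⟨l1, _, rfl⟩ := h1
    obtain ⟨l2, _, h⟩ := h2
    exact hab (List.cons.inj h).1.symm

theorem E1 : S_E1 := by
  intro V _ _ G σ L
  induction L with
  | zero =>
    intro x y
    rw [pow_zero, Matrix.one_apply, LL, Finset.sum_singleton]
    simp only [endp, edg, List.map_nil, List.prod_nil]
  | succ L ih =>
    intro x y
    rw [pow_succ', Matrix.mul_apply, E1_sum]
    refine Finset.sum_congr rfl (fun a _ => ?_)
    rw [ih a y, Finset.mul_sum]
    refine Finset.sum_congr rfl (fun l _ => ?_)
    simp only [endp, edg, List.map_cons, List.prod_cons, SM, Matrix.of_apply]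
    split_ifs
    · rfl
    · rw [mul_zero]

end Pool.Agent.H590R2.RS
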