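import Pool.Agent.H590R2.RS.Defs

/-! Task E2: averages of products of signs. -/

namespace Pool.Agent.H590R2.RS

theorem e2_prod_flip {α : Type} [BEq α] [LawfulBEq α] (g h : α → ℝ) (e0 : α)
    (h1 : h e0 = - g e0) (h2 : ∀ e, e ≠ e0 → h e = g e) (es : List α) :
    (es.map h).prod = (-1) ^ (es.count e0) * (es.map g).prod := by
  induction es with
  | nil => simp
  | cons a es ih =>
    rw [List.map_cons, List.prod_cons, List.map_cons, List.prod_cons, ih]
    by_cases ha : a = e0
    · subst ha
      rw [h1, List.count_cons_self, pow_succ]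
      ring
    · rw [h2 a ha, List.count_cons_of_ne ha]
      ring

theorem e2_abs_prod_le {α : Type} (g : α → ℝ) (h : ∀ e, |g e| ≤ 1) (es : List α) :
    |(es.map g).prod| ≤ 1 := by
  induction es with
  | nil => simp
  | cons a es ih =>
    rw [List.map_cons, List.prod_cons, abs_mul]
    exact mul_le_one₀ (h a) (abs_nonneg _) ih

open Classical in
theorem e2_sgn_abs {V : Type} (G : SimpleGraph V) (σ : G.edgeSet → Bool) (e : Sym2 V) :
    |sgn G σ e| ≤ 1 := by
  unfold sgn
  split_ifs <;> simp

open Classical in
theorem E2 : S_E2 := by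
  intro V _ _ G es
  by_cases hall : ∀ e ∈ es, e ∈ G.edgeSet
  · by_cases hev : ∀ e, Even (es.count e)
    · rw [if_pos ⟨hall, hev⟩]
      calc ∑ σ : G.edgeSet → Bool, (es.map (sgn G σ)).prod
          ≤ ∑ σ : G.edgeSet → Bool, (1 : ℝ) :=
            Finset.sum_le_sum fun σ _ =>
              le_trans (le_abs_self _) (e2_abs_prod_le _ (e2_sgn_abs G σ) es)
        _ = _ := by simp
    · rw [if_neg (fun h => hev h.2)]
      push Not at hev
      obtain ⟨e0, he0⟩ := hev
      have hmem : e0 ∈ es := by
        by_contra hn
        apply he0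
        rw [List.count_eq_zero_of_not_mem hn]
        exact Even.zero
      have hodd : Odd (es.count e0) := Nat.not_even_iff_odd.1 he0
      have hE : e0 ∈ G.edgeSet := hall e0 hmem
      let fl : (G.edgeSet → Bool) → (G.edgeSet → Bool) := fun σ =>
        Function.update σ ⟨e0, hE⟩ (!σ ⟨e0, hE⟩)
      have hfl : Function.Involutive fl := by
        intro σ
        funext e
        by_cases he : e = ⟨e0, hE⟩
        · subst he
          simp [fl]
        · simp [fl, he]
      have hval : ∀ σ, (es.map (sgn G (fl σ))).prod = - (es.map (sgn G σ)).prod := by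
        intro σ
        rw [e2_prod_flip (sgn G σ) (sgn G (fl σ)) e0 _ _ es, hodd.neg_one_pow]
        · ring
        · unfold sgn
          rw [dif_pos hE, dif_pos hE]
          simp only [fl, Function.update_self]
          cases σ ⟨e0, hE⟩ <;> simp
        · intro e he
          unfold sgn
          by_cases hm : e ∈ G.edgeSet
          · rw [dif_pos hm, dif_pos hm]
            have : (⟨e, hm⟩ : G.edgeSet) ≠ ⟨e0, hE⟩ := fun h => he (congrArg Subtype.val h)
            simp only [fl, Function.update_of_ne this]
          · rw [dif_neg hm, dif_neg hm]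
      have hsum : ∑ σ : G.edgeSet → Bool, (es.map (sgn G σ)).prod
          = - ∑ σ : G.edgeSet → Bool, (es.map (sgn G σ)).prod := by
        rw [← Finset.sum_neg_distrib]
        rw [← Equiv.sum_comp (Function.Involutive.toPerm fl hfl)]
        refine Finset.sum_congr rfl fun σ _ => ?_
        exact hval σ
      linarith
  · rw [if_neg (fun h => hall h.1)]
    push Not at hall
    obtain ⟨e, he, hne⟩ := hall
    apply le_of_eq
    apply Finset.sum_eq_zero
    intro σ _
    apply List.prod_eq_zero
    rw [List.mem_map]
    refine ⟨e, he, ?_⟩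
    unfold sgn
    rw [dif_neg hne]

end Pool.Agent.H590R2.RS
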