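import Pool.Agent.H590R2.RS.Defs

/-! Task F (helper415): Markov inequality for the trace. -/

namespace Pool.Agent.H590R2.RS

open Matrix Unitary

theorem F_trace_pow {V : Type} [Fintype V] [DecidableEq V] (A : Matrix V V ℝ)
    (hA : A.IsHermitian) (L : ℕ) : trace (A ^ L) = ∑ i, hA.eigenvalues i ^ L := by
  have h1 : A ^ L = conjStarAlgAut ℝ _ hA.eigenvectorUnitary
      ((diagonal (RCLike.ofReal ∘ hA.eigenvalues)) ^ L) := by
    rw [map_pow, ← hA.spectral_theorem]
  rw [h1, conjStarAlgAut_apply, trace_mul_comm, ← mul_assoc]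
  have h2 : (star (hA.eigenvectorUnitary : Matrix V V ℝ)) * (hA.eigenvectorUnitary : Matrix V V ℝ) = 1 :=
    Unitary.coe_star_mul_self _
  rw [h2, one_mul, diagonal_pow, trace_diagonal]
  rfl

theorem F_symm {V : Type} [Fintype V] [DecidableEq V] (G : SimpleGraph V)
    (σ : G.edgeSet → Bool) : (SM G σ).IsHermitian := by
  ext u v
  unfold SM
  rw [conjTranspose_apply, star_trivial, of_apply, of_apply, Sym2.eq_swap]

theorem F : S_F := by
  classical
  intro V _ _ G L θ hL hθ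
  have h0 : ∀ σ : G.edgeSet → Bool, 0 ≤ trace (SM G σ ^ L) := by
    intro σ
    rw [F_trace_pow _ (F_symm G σ)]
    exact Finset.sum_nonneg fun i _ => hL.pow_nonneg _
  have h1 : ∀ σ : G.edgeSet → Bool, (∃ μ ∈ spectrum ℝ (SM G σ), θ ≤ |μ|) →
      θ ^ L ≤ trace (SM G σ ^ L) := by
    rintro σ ⟨μ, hμ, hθμ⟩
    rw [(F_symm G σ).spectrum_real_eq_range_eigenvalues] at hμ
    obtain ⟨i, hi⟩ := hμ
    rw [F_trace_pow _ (F_symm G σ)]
    calc θ ^ L ≤ |μ| ^ L := pow_le_pow_left₀ hθ hθμ L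
      _ = (F_symm G σ).eigenvalues i ^ L := by rw [hL.pow_abs, hi]
      _ ≤ ∑ i, (F_symm G σ).eigenvalues i ^ L :=
        Finset.single_le_sum (f := fun i => (F_symm G σ).eigenvalues i ^ L)
          (fun i _ => hL.pow_nonneg _) (Finset.mem_univ i)
  rw [← nsmul_eq_mul]
  refine le_trans (Finset.card_nsmul_le_sum _ _ _ ?_) (Finset.sum_le_sum_of_subset_of_nonneg
    (Finset.filter_subset _ _) fun σ _ _ => h0 σ)
  intro σ hσ
  exact h1 σ (Finset.mem_filter.1 hσ).2

end Pool.Agent.H590R2.RS
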