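import Pool.Agent.H590R2.RS.Defs

/-! Task G0 (helper180): eigenvectors for the eigenvalue `d` are constant. -/

set_option autoImplicit false

namespace Pool.Agent.H590R2.RS

namespace G0aux

open Classical in
theorem step {V : Type} [Fintype V] [DecidableEq V] (G : SimpleGraph V) (d : ℕ)
    (hreg : G.IsRegularOfDegree d) (f : V → ℝ)
    (hf : ∀ u, ∑ v, (if G.Adj u v then f v else 0) = d * f u) (M : ℝ) (hM : ∀ v, f v ≤ M)
    (u v : V) (hu : f u = M) (huv : G.Adj u v) : f v = M := by
  have h1 : ∑ v, (if G.Adj u v then (1 : ℝ) else 0) = d := by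
    rw [Finset.sum_boole]
    have h2 : G.degree u = d := hreg u
    rw [← h2, ← SimpleGraph.card_neighborFinset_eq_degree]
    congr 2
    ext w
    simp
  have h2 : ∑ w, (if G.Adj u w then M - f w else 0) = 0 := by
    have h3 : ∀ w, (if G.Adj u w then M - f w else 0) =
        M * (if G.Adj u w then (1 : ℝ) else 0) - (if G.Adj u w then f w else 0) := by
      intro w
      split_ifs <;> ring
    rw [Finset.sum_congr rfl fun w _ => h3 w, Finset.sum_sub_distrib, ← Finset.mul_sum, h1, hf u, hu]
    ring
  have h3 := (Finset.sum_eq_zero_iff_of_nonneg (fun w _ => by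
    split_ifs
    · linarith [hM w]
    · exact le_rfl)).1 h2 v (Finset.mem_univ v)
  rw [if_pos huv] at h3
  linarith

end G0aux

theorem G0 : S_G0 := by
  intro V _ _ G d hconn hreg f hf
  have := hconn.nonempty
  obtain ⟨u0, hu0⟩ := Finite.exists_max f
  have key : ∀ v, f v = f u0 := by
    intro v
    obtain ⟨p⟩ := hconn.preconnected u0 v
    induction p with
    | nil => rfl
    | cons h p ih =>
      rename_i a b c
      have h1 : f b = f a := G0aux.step G d hreg f hf (f a) hu0 a b rfl h
      rw [← h1]
      apply ih
      intro w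
      rw [h1]
      exact hu0 w
  intro u v
  rw [key u, key v]

end Pool.Agent.H590R2.RS
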