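import Pool.Agent.H590R2.RS.Defs

namespace Pool.Agent.H590R2.RS

open Classical in
theorem G1_sphere {V : Type} [Fintype V] (G : SimpleGraph V) (d : ℕ)
    (hd : ∀ u, {w | G.Adj u w}.ncard ≤ d) (i : ℕ) : ∀ x : V,
    (Finset.univ.filter fun y => ∃ l : List V, l.length = i ∧ isW G x l y).card ≤ d ^ i := by
  induction i with
  | zero =>
    intro x
    rw [pow_zero, Finset.card_le_one]
    intro a ha b hb
    rw [Finset.mem_filter] at ha hb
    obtain ⟨-, l, hl, hw⟩ := ha
    obtain ⟨-, l', hl', hw'⟩ := hb
    rw [List.length_eq_zero_iff] at hl hl'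
    subst hl; subst hl'
    have h1 : x = a := hw
    have h2 : x = b := hw'
    rw [← h1, ← h2]
  | succ i ih =>
    intro x
    have hsub : (Finset.univ.filter fun y => ∃ l : List V, l.length = i + 1 ∧ isW G x l y) ⊆
        (Finset.univ.filter fun w => G.Adj x w).biUnion fun w =>
          Finset.univ.filter fun y => ∃ l : List V, l.length = i ∧ isW G w l y := by
      intro y hy
      rw [Finset.mem_filter] at hy
      obtain ⟨-, l, hl, hw⟩ := hy
      rcases l with _ | ⟨a, l⟩
      · simp at hl
      · obtain ⟨h1, h2⟩ := hw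
        rw [Finset.mem_biUnion]
        refine ⟨a, Finset.mem_filter.2 ⟨Finset.mem_univ _, h1⟩,
          Finset.mem_filter.2 ⟨Finset.mem_univ _, l, ?_, h2⟩⟩
        simpa using hl
    have hdeg : (Finset.univ.filter fun w => G.Adj x w).card ≤ d := by
      have := hd x
      have e : {w | G.Adj x w} = ((Finset.univ.filter fun w => G.Adj x w : Finset V) : Set V) := by
        ext w; simp
      rwa [e, Set.ncard_coe_finset] at this
    calc _ ≤ _ := Finset.card_le_card hsub
      _ ≤ (Finset.univ.filter fun w => G.Adj x w).card * d ^ i :=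
        Finset.card_biUnion_le_card_mul _ _ _ fun w _ => ih w
      _ ≤ d * d ^ i := Nat.mul_le_mul_right _ hdeg
      _ = d ^ (i + 1) := by ring

theorem G1_sum (d n : ℕ) (hd : 2 ≤ d) : ∑ i ∈ Finset.range n, d ^ i ≤ d ^ n := by
  induction n with
  | zero => simp
  | succ n ih =>
    rw [Finset.sum_range_succ, pow_succ]
    nlinarith [Nat.zero_le (d ^ n)]

theorem G1 : S_G1 := by
  classical
  intro V _ G d hd2 hd R x
  have e : {y | Near G R x y} =
      ((Finset.univ.filter fun y => Near G R x y : Finset V) : Set V) := by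
    ext w; simp
  rw [e, Set.ncard_coe_finset]
  have hsub : (Finset.univ.filter fun y => Near G R x y) ⊆
      (Finset.range (R + 1)).biUnion fun i =>
        Finset.univ.filter fun y => ∃ l : List V, l.length = i ∧ isW G x l y := by
    intro y hy
    rw [Finset.mem_filter] at hy
    obtain ⟨-, l, hl, hw⟩ := hy
    rw [Finset.mem_biUnion]
    exact ⟨l.length, Finset.mem_range.2 (by omega),
      Finset.mem_filter.2 ⟨Finset.mem_univ _, l, rfl, hw⟩⟩
  calc _ ≤ _ := Finset.card_le_card hsub
    _ ≤ ∑ i ∈ Finset.range (R + 1), _ := Finset.card_biUnion_le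
    _ ≤ ∑ i ∈ Finset.range (R + 1), d ^ i :=
      Finset.sum_le_sum fun i _ => G1_sphere G d hd i x
    _ ≤ d ^ (R + 1) := G1_sum d _ hd2

end Pool.Agent.H590R2.RS
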