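import Pool.Agent.H590R2.RS.Defs

set_option autoImplicit false

namespace Pool.Agent.H590R2.RS

open Matrix

theorem G2 (hG0 : S_G0) : S_G2 := by
  classical
  intro V _ _ G d hd hR N U hU f hf
  obtain ⟨hconn, hreg, hspec⟩ := hR
  have hne : Nonempty V := hconn.nonempty
  set n : ℝ := (Fintype.card V : ℝ) with hn
  have hn0 : 0 < n := by
    rw [hn]
    exact_mod_cast Fintype.card_pos
  have hd1 : (0 : ℝ) ≤ 2 * √((d : ℝ) - 1) := by positivity
  set A : Matrix V V ℝ := G.adjMatrix ℝ with hA
  have hH : A.IsHermitian := by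
    rw [Matrix.IsHermitian, Matrix.conjTranspose_eq_transpose_of_trivial]
    exact SimpleGraph.transpose_adjMatrix (α := ℝ) (G := G)
  set b := hH.eigenvectorBasis with hb
  set μ := hH.eigenvalues with hμ
  have heig : ∀ i, A *ᵥ (fun u => b i u) = fun u => μ i * b i u := by
    intro i
    have := hH.mulVec_eigenvectorBasis i
    rw [← hb, ← hμ] at this
    exact this
  -- coefficients
  set c : V → ℝ := fun i => ∑ u, b i u * f u with hc
  have hinner : ∀ (i : V) (g : V → ℝ), inner ℝ (b i) (WithLp.toLp 2 g : EuclideanSpace ℝ V) =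
      ∑ u, b i u * g u := by
    intro i g
    rw [PiLp.inner_apply]
    refine Finset.sum_congr rfl fun u _ => ?_
    simp [mul_comm]
  have hinner' : ∀ (i : V) (g : V → ℝ), inner ℝ (WithLp.toLp 2 g : EuclideanSpace ℝ V) (b i) =
      ∑ u, b i u * g u := by
    intro i g
    rw [real_inner_comm, hinner]
  -- Parseval
  have hpars : ∀ g : V → ℝ, ∑ i, c i * (∑ u, b i u * g u) = ∑ u, f u * g u := by
    intro g
    have h := b.sum_inner_mul_inner (WithLp.toLp 2 f) (WithLp.toLp 2 g)
    have h2 : inner ℝ (WithLp.toLp 2 f : EuclideanSpace ℝ V) (WithLp.toLp 2 g) =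
        ∑ u, f u * g u := by
      rw [PiLp.inner_apply]
      refine Finset.sum_congr rfl fun u _ => ?_
      simp [mul_comm]
    rw [← h2, ← h]
    refine Finset.sum_congr rfl fun i _ => ?_
    rw [hinner, hinner', hc]
  have hsq : ∑ i, c i ^ 2 = ∑ u, f u ^ 2 := by
    have := hpars f
    simp only [sq]
    rw [← this]
  -- the quadratic form
  have hq : ∑ u, ∑ v, (if G.Adj u v then f u * f v else 0) = ∑ i, μ i * c i ^ 2 := by
    have h1 : ∑ u, ∑ v, (if G.Adj u v then f u * f v else 0) = ∑ u, f u * (A *ᵥ f) u := by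
      refine Finset.sum_congr rfl fun u _ => ?_
      rw [Matrix.mulVec, dotProduct, Finset.mul_sum]
      refine Finset.sum_congr rfl fun v _ => ?_
      rw [hA, SimpleGraph.adjMatrix_apply]
      split_ifs <;> ring
    rw [h1, ← hpars]
    refine Finset.sum_congr rfl fun i _ => ?_
    have h2 : ∑ u, b i u * (A *ᵥ f) u = μ i * c i := by
      have h3 : ∑ u, b i u * (A *ᵥ f) u = ∑ u, (A *ᵥ (fun u => b i u)) u * f u := by
        have h4 : (fun u => b i u) ⬝ᵥ (A *ᵥ f) = (A *ᵥ (fun u => b i u)) ⬝ᵥ f := by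
          rw [Matrix.dotProduct_mulVec, ← Matrix.mulVec_transpose]
          have : Aᵀ = A := SimpleGraph.transpose_adjMatrix (α := ℝ) (G := G)
          rw [this]
        exact h4
      rw [h3, heig, hc, Finset.mul_sum]
      exact Finset.sum_congr rfl fun u _ => by ring
    rw [h2]
    ring
  rw [hq]
  -- eigenvalues different from `d`
  have hμle : ∀ i, μ i ≠ d → μ i ≤ 2 * √((d : ℝ) - 1) := by
    intro i hi
    have hmem : μ i ∈ spectrum ℝ A := by
      rw [hH.spectrum_real_eq_range_eigenvalues]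
      exact ⟨i, rfl⟩
    by_cases habs : |μ i| = d
    · have : μ i ≤ 0 := by
        by_contra h
        push Not at h
        rw [abs_of_pos h] at habs
        exact hi habs
      linarith
    · exact (le_abs_self _).trans (hspec _ hmem habs)
  -- eigenvalues equal to `d`
  have hconst : ∀ i, μ i = d → ∀ u v, b i u = b i v := by
    intro i hi
    apply hG0 V G d hconn ?_ (fun u => b i u)
    · intro u
      have h := congrFun (heig i) u
      rw [hi] at h
      rw [Matrix.mulVec, dotProduct] at h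
      rw [← h]
      refine Finset.sum_congr rfl fun v _ => ?_
      rw [hA, SimpleGraph.adjMatrix_apply]
      split_ifs <;> simp
    · convert hreg
  have hnorm : ∀ i, ∑ u, b i u * b i u = 1 := by
    intro i
    have h1 := hinner i (fun u => b i u)
    have h2 : (WithLp.toLp 2 (fun u => b i u) : EuclideanSpace ℝ V) = b i := rfl
    rw [h2, real_inner_self_eq_norm_sq, b.norm_eq_one] at h1
    rw [← h1]
    norm_num
  have huniq : ∀ i j, μ i = d → μ j = d → i = j := by
    intro i j hi hj
    by_contra hij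
    have hci := hconst i hi
    have hcj := hconst j hj
    obtain ⟨u0⟩ := hne
    have h1 : ∑ u, b i u * b j u = 0 := by
      have h1 := hinner i (fun u => b j u)
      have h2 : (WithLp.toLp 2 (fun u => b j u) : EuclideanSpace ℝ V) = b j := rfl
      rw [h2, b.inner_eq_zero hij] at h1
      exact h1.symm
    have h2 := hnorm i
    have h3 := hnorm j
    simp only [fun u => hci u u0, fun u => hcj u u0, Finset.sum_const, Finset.card_univ,
      nsmul_eq_mul] at h1 h2 h3
    have h4 : ((Fintype.card V : ℝ) * (b i u0 * b i u0)) * ((Fintype.card V : ℝ) *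
        (b j u0 * b j u0)) = ((Fintype.card V : ℝ) * (b i u0 * b j u0)) ^ 2 := by ring
    rw [h1, h2, h3] at h4
    norm_num at h4
  have hcd : ∀ i, μ i = d → c i ^ 2 ≤ (N : ℝ) / n * ∑ u, f u ^ 2 := by
    intro i hi
    obtain ⟨u0⟩ := hne
    have hci := hconst i hi
    have h1 : c i = b i u0 * ∑ u, f u := by
      rw [hc, Finset.mul_sum]
      exact Finset.sum_congr rfl fun u _ => by rw [hci u u0]
    have h2 := hnorm i
    simp only [fun u => hci u u0, Finset.sum_const, Finset.card_univ, nsmul_eq_mul] at h2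
    have h3 : (∑ u, f u) ^ 2 ≤ (N : ℝ) * ∑ u, f u ^ 2 := by
      set s := Finset.univ.filter (fun u => u ∈ U) with hs
      have h4 : ∑ u, f u = ∑ u ∈ s, f u := by
        rw [hs, Finset.sum_filter]
        refine Finset.sum_congr rfl fun u _ => ?_
        by_cases hu : u ∈ U
        · rw [if_pos hu]
        · rw [if_neg hu]
          by_contra h
          exact hu (hf u h)
      have h5 : (s.card : ℝ) ≤ N := by
        have : (s : Set V) = U := by
          ext u
          simp [hs]
        rw [← this, Set.ncard_coe_finset] at hU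
        exact_mod_cast hU
      have h6 : ∑ u ∈ s, f u ^ 2 ≤ ∑ u, f u ^ 2 :=
        Finset.sum_le_sum_of_subset_of_nonneg (Finset.filter_subset _ _)
          (fun u _ _ => sq_nonneg _)
      rw [h4]
      calc (∑ u ∈ s, f u) ^ 2 ≤ (s.card : ℝ) * ∑ u ∈ s, f u ^ 2 := sq_sum_le_card_mul_sum_sq
        _ ≤ (N : ℝ) * ∑ u, f u ^ 2 := by
            apply mul_le_mul h5 h6 (Finset.sum_nonneg fun u _ => sq_nonneg _) (Nat.cast_nonneg _)
    have h7 : c i ^ 2 = (∑ u, f u) ^ 2 / n := by
      rw [eq_div_iff hn0.ne', h1]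
      calc (b i u0 * ∑ u, f u) ^ 2 * n = (n * (b i u0 * b i u0)) * (∑ u, f u) ^ 2 := by ring
        _ = (∑ u, f u) ^ 2 := by rw [h2, one_mul]
    rw [h7, div_mul_eq_mul_div]
    exact div_le_div_of_nonneg_right h3 hn0.le
  -- conclusion
  have hterm : ∀ i, μ i * c i ^ 2 ≤ 2 * √((d : ℝ) - 1) * c i ^ 2 +
      (if μ i = d then (d : ℝ) * ((N : ℝ) / n * ∑ u, f u ^ 2) else 0) := by
    intro i
    split_ifs with h
    · rw [h]
      have h1 : (d : ℝ) * c i ^ 2 ≤ (d : ℝ) * ((N : ℝ) / n * ∑ u, f u ^ 2) :=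
        mul_le_mul_of_nonneg_left (hcd i h) (Nat.cast_nonneg _)
      have h2 : 0 ≤ 2 * √((d : ℝ) - 1) * c i ^ 2 := by positivity
      linarith
    · rw [add_zero]
      exact mul_le_mul_of_nonneg_right (hμle i h) (sq_nonneg _)
  have hD : 0 ≤ (d : ℝ) * ((N : ℝ) / n * ∑ u, f u ^ 2) := by
    have : 0 ≤ ∑ u, f u ^ 2 := Finset.sum_nonneg fun u _ => sq_nonneg _
    positivity
  have hone : ∑ i, (if μ i = d then (d : ℝ) * ((N : ℝ) / n * ∑ u, f u ^ 2) else 0) ≤
      (d : ℝ) * ((N : ℝ) / n * ∑ u, f u ^ 2) := by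
    rw [← Finset.sum_filter, Finset.sum_const, nsmul_eq_mul]
    have hcard : (Finset.univ.filter fun i => μ i = d).card ≤ 1 := by
      rw [Finset.card_le_one]
      intro i hi j hj
      exact huniq i j (Finset.mem_filter.1 hi).2 (Finset.mem_filter.1 hj).2
    have : ((Finset.univ.filter fun i => μ i = d).card : ℝ) ≤ 1 := by exact_mod_cast hcard
    nlinarith
  calc ∑ i, μ i * c i ^ 2 ≤ ∑ i, (2 * √((d : ℝ) - 1) * c i ^ 2 +
        (if μ i = d then (d : ℝ) * ((N : ℝ) / n * ∑ u, f u ^ 2) else 0)) :=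
        Finset.sum_le_sum fun i _ => hterm i
    _ = 2 * √((d : ℝ) - 1) * ∑ i, c i ^ 2 +
        ∑ i, (if μ i = d then (d : ℝ) * ((N : ℝ) / n * ∑ u, f u ^ 2) else 0) := by
        rw [Finset.sum_add_distrib]
        congr 1
        rw [Finset.mul_sum]
    _ ≤ 2 * √((d : ℝ) - 1) * ∑ u, f u ^ 2 + (d : ℝ) * ((N : ℝ) / n * ∑ u, f u ^ 2) := by
        rw [hsq]
        linarith
    _ = _ := by ring

end Pool.Agent.H590R2.RS
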