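import Pool.Agent.H590R2.RS.Defs

/-! Task G3 (helper415): local bound for Ramanujan graphs. -/

namespace Pool.Agent.H590R2.RS

theorem G3 (hG1 : S_G1) (hG2 : S_G2) : S_G3 := by
  classical
  intro V _ _ G d hd hR
  have hdeg : ∀ u, {w | G.Adj u w}.ncard ≤ d := by
    intro u
    have h1 := hR.2.1 u
    have h2 : {w | G.Adj u w} = (G.neighborFinset u : Set V) := by
      ext w
      simp
    rw [h2, Set.ncard_coe_finset, SimpleGraph.card_neighborFinset_eq_degree]
    exact (le_of_eq h1)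
  refine ⟨hdeg, ?_⟩
  intro R x f hf
  have h1 := hG1 V G d (by omega) hdeg R x
  have h2 := hG2 V G d hd hR (d ^ (R + 1)) {y | Near G R x y} h1 f (fun y hy => hf y hy)
  have h3 : (d : ℝ) * ((d ^ (R + 1) : ℕ) : ℝ) = (d : ℝ) ^ (R + 2) := by
    push_cast
    ring
  rw [h3] at h2
  exact h2

end Pool.Agent.H590R2.RS
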