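import Pool.Agent.H590R2.RS.Defs

namespace Pool.Agent.H590R2.RS

theorem H : S_H := by
  intro d θ lam ε hd hlam hθ hε
  have hθ0 : 0 < θ := by linarith
  have hlam0 : 0 < lam := by linarith
  have hd0 : (0 : ℝ) < d := by
    have : 0 < d := by omega
    exact_mod_cast this
  obtain ⟨q, hq⟩ : ∃ q : ℝ, q = lam / θ := ⟨_, rfl⟩
  have hq0 : 0 < q := by rw [hq]; positivity
  have hq1 : q < 1 := by rw [hq]; exact (div_lt_one hθ0).2 hθ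
  have hlq : lam = q * θ := by rw [hq]; field_simp
  obtain ⟨J0, hJ0⟩ := exists_pow_lt_of_lt_one
    (show (0 : ℝ) < 1 / (2 * (d : ℝ) ^ 20) by positivity) hq1
  obtain ⟨J, hJdef⟩ : ∃ J : ℕ, J = J0 + 1 := ⟨_, rfl⟩
  have hJ1 : 1 ≤ J := by omega
  have hJ : q ^ (2 * J) ≤ 1 / (2 * (d : ℝ) ^ 20) :=
    (pow_le_pow_of_le_one hq0.le hq1.le (by omega)).trans hJ0.le
  refine ⟨J, hJ1, ?_⟩
  obtain ⟨K, hK⟩ : ∃ K : ℕ, K = 2 * J * (2 * J + 1) := ⟨_, rfl⟩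
  rw [← hK]
  obtain ⟨A, hA⟩ : ∃ A : ℝ, A = (d : ℝ) ^ 20 *
    (((K : ℝ) + 1) * ((d : ℝ) + 3) * (2 * (J : ℝ) + 1) ^ 4) ^ K := ⟨_, rfl⟩
  have hA0 : 0 < A := by rw [hA]; positivity
  have ht : Filter.Tendsto (fun r : ℕ => A * ((r : ℝ) ^ (4 * K) / (2 : ℝ) ^ r)) Filter.atTop
      (nhds (A * 0)) :=
    (tendsto_pow_const_div_const_pow_of_one_lt (4 * K) (by norm_num : (1 : ℝ) < 2)).const_mul A
  rw [mul_zero] at ht
  have hev := ht.eventually (gt_mem_nhds hε)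
  obtain ⟨r1, hr1⟩ := Filter.eventually_atTop.1 hev
  refine ⟨max r1 1, ?_⟩
  intro r hr n hn
  have hrr1 : r1 ≤ r := (le_max_left _ _).trans hr
  have hr1' : 1 ≤ r := (le_max_right _ _).trans hr
  have hlt := hr1 r hrr1
  have hrpos : (1 : ℝ) ≤ r := by exact_mod_cast hr1'
  have hn' : (n : ℝ) ≤ (d : ℝ) ^ 20 * ((d : ℝ) ^ 20) ^ r := by
    have : (n : ℝ) ≤ (d : ℝ) ^ (20 * (r + 1)) := by exact_mod_cast hn
    calc (n : ℝ) ≤ (d : ℝ) ^ (20 * (r + 1)) := this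
      _ = (d : ℝ) ^ 20 * ((d : ℝ) ^ 20) ^ r := by
        rw [← pow_mul, ← pow_add]; congr 1; ring
  have hbase : (((K + 1) * (d + 3) * (2 * J * r + 1) ^ 4 : ℕ) : ℝ) ≤
      (((K : ℝ) + 1) * ((d : ℝ) + 3) * (2 * (J : ℝ) + 1) ^ 4) * (r : ℝ) ^ 4 := by
    push_cast
    have h1 : (2 * (J : ℝ) * r + 1) ≤ (2 * (J : ℝ) + 1) * r := by nlinarith
    have h2 : (2 * (J : ℝ) * r + 1) ^ 4 ≤ ((2 * (J : ℝ) + 1) * r) ^ 4 :=
      pow_le_pow_left₀ (by positivity) h1 4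
    calc ((K : ℝ) + 1) * ((d : ℝ) + 3) * (2 * (J : ℝ) * r + 1) ^ 4
        ≤ ((K : ℝ) + 1) * ((d : ℝ) + 3) * ((2 * (J : ℝ) + 1) * r) ^ 4 :=
          mul_le_mul_of_nonneg_left h2 (by positivity)
      _ = _ := by ring
  have hpow : (((K + 1) * (d + 3) * (2 * J * r + 1) ^ 4 : ℕ) : ℝ) ^ K ≤
      (((K : ℝ) + 1) * ((d : ℝ) + 3) * (2 * (J : ℝ) + 1) ^ 4) ^ K * (r : ℝ) ^ (4 * K) := by
    calc (((K + 1) * (d + 3) * (2 * J * r + 1) ^ 4 : ℕ) : ℝ) ^ K ≤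
        ((((K : ℝ) + 1) * ((d : ℝ) + 3) * (2 * (J : ℝ) + 1) ^ 4) * (r : ℝ) ^ 4) ^ K :=
          pow_le_pow_left₀ (by positivity) hbase K
      _ = _ := by rw [mul_pow, ← pow_mul]
  have hlamp : lam ^ (2 * J * r) = (q ^ (2 * J)) ^ r * θ ^ (2 * J * r) := by
    rw [hlq, mul_pow, ← pow_mul]
  have hqp : ((d : ℝ) ^ 20) ^ r * (q ^ (2 * J)) ^ r ≤ 1 / (2 : ℝ) ^ r := by
    rw [← mul_pow]
    have h3 : (d : ℝ) ^ 20 * q ^ (2 * J) ≤ 1 / 2 := by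
      calc (d : ℝ) ^ 20 * q ^ (2 * J) ≤ (d : ℝ) ^ 20 * (1 / (2 * (d : ℝ) ^ 20)) :=
            mul_le_mul_of_nonneg_left hJ (by positivity)
        _ = 1 / 2 := by field_simp
    calc ((d : ℝ) ^ 20 * q ^ (2 * J)) ^ r ≤ (1 / 2) ^ r :=
          pow_le_pow_left₀ (by positivity) h3 r
      _ = 1 / (2 : ℝ) ^ r := by rw [div_pow, one_pow]
  obtain ⟨B, hB⟩ : ∃ B : ℝ, B = (((K : ℝ) + 1) * ((d : ℝ) + 3) * (2 * (J : ℝ) + 1) ^ 4) ^ K :=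
    ⟨_, rfl⟩
  rw [← hB] at hpow hA
  have hB0 : 0 < B := by rw [hB]; positivity
  calc (n : ℝ) * ((((K + 1) * (d + 3) * (2 * J * r + 1) ^ 4 : ℕ) : ℝ) ^ K * lam ^ (2 * J * r))
      ≤ ((d : ℝ) ^ 20 * ((d : ℝ) ^ 20) ^ r) * ((B * (r : ℝ) ^ (4 * K)) * lam ^ (2 * J * r)) := by
        apply mul_le_mul hn' _ (by positivity) (by positivity)
        exact mul_le_mul_of_nonneg_right hpow (by positivity)
    _ = (A * (r : ℝ) ^ (4 * K)) * (((d : ℝ) ^ 20) ^ r * (q ^ (2 * J)) ^ r) *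
          θ ^ (2 * J * r) := by rw [hlamp, hA]; ring
    _ ≤ (A * (r : ℝ) ^ (4 * K)) * (1 / (2 : ℝ) ^ r) * θ ^ (2 * J * r) := by
        apply mul_le_mul_of_nonneg_right _ (by positivity)
        exact mul_le_mul_of_nonneg_left hqp (by positivity)
    _ = (A * ((r : ℝ) ^ (4 * K) / (2 : ℝ) ^ r)) * θ ^ (2 * J * r) := by ring
    _ ≤ ε * θ ^ (2 * J * r) := mul_le_mul_of_nonneg_right hlt.le (by positivity)

end Pool.Agent.H590R2.RS
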