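import Pool.Agent.H590R2.RS.Defs

namespace Pool.Agent.H590R2.RS

open Classical in
theorem LG (hGEN : S_GEN) (hH : S_H) : S_LG := by
  intro d θ lam ε hd hlam hθ hε
  obtain ⟨J, hJ, r0, hr0⟩ := hH d θ lam ε hd hlam hθ hε
  refine ⟨d ^ (20 * (max r0 1)), ?_⟩
  intro V _ _ G hn hdeg hloc
  set n := Fintype.card V with hndef
  set r := Nat.log d n / 20 with hrdef
  have hd1 : 1 < d := by omega
  have hn0 : n ≠ 0 := by
    have : 0 < d ^ (20 * (max r0 1)) := Nat.pow_pos (by omega)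
    omega
  have hlog : 20 * (max r0 1) ≤ Nat.log d n := Nat.le_log_of_pow_le hd1 hn
  have hr : max r0 1 ≤ r := by
    rw [hrdef]; omega
  have hr1 : 1 ≤ r := le_trans (le_max_right _ _) hr
  have hr0' : r0 ≤ r := le_trans (le_max_left _ _) hr
  have hnle : n ≤ d ^ (20 * (r + 1)) := by
    have h1 : n < d ^ (Nat.log d n + 1) := Nat.lt_pow_succ_log_self hd1 n
    have h2 : Nat.log d n + 1 ≤ 20 * (r + 1) := by rw [hrdef]; omega
    have h3 : d ^ (Nat.log d n + 1) ≤ d ^ (20 * (r + 1)) := Nat.pow_le_pow_right (by omega) h2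
    omega
  have hHn := hr0 r hr0' n hnle
  have hθ0 : 0 < θ := by linarith
  have hLdiv : (2 * J * r) / (r + 1) ≤ 2 * J := by
    apply Nat.div_le_of_le_mul
    nlinarith
  have hK : ((2 * J * r) / (r + 1) + 1) * (2 * J * r) ≤ r * (2 * J * (2 * J + 1)) := by
    calc ((2 * J * r) / (r + 1) + 1) * (2 * J * r) ≤ (2 * J + 1) * (2 * J * r) :=
          Nat.mul_le_mul_right _ (by omega)
      _ = r * (2 * J * (2 * J + 1)) := by ring
  have hEven : Even (2 * J * r) := ⟨J * r, by ring⟩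
  have hG := hGEN V G r (2 * J * (2 * J + 1)) (2 * J * r) d lam θ hr1 hEven hlam hθ0.le hloc hdeg hK
  set bad := (Finset.univ.filter fun σ : G.edgeSet → Bool =>
    ∃ μ ∈ spectrum ℝ (SM G σ), θ ≤ |μ|) with hbad
  set good := (Finset.univ.filter fun σ : G.edgeSet → Bool =>
      ∀ μ ∈ spectrum ℝ (SM G σ), |μ| < θ) with hgood
  have hgb : good.card + bad.card = Fintype.card (G.edgeSet → Bool) := by
    have h1 : bad = (Finset.univ.filter fun σ : G.edgeSet → Bool =>
        ¬ ∀ μ ∈ spectrum ℝ (SM G σ), |μ| < θ) := by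
      rw [hbad]
      apply Finset.filter_congr
      intro σ _
      push Not
      rfl
    rw [h1, hgood, Finset.card_filter_add_card_filter_not, Finset.card_univ]
  have htot : (0 : ℝ) < (Fintype.card (G.edgeSet → Bool) : ℝ) := by
    exact_mod_cast Fintype.card_pos
  have hpow : (0 : ℝ) < θ ^ (2 * J * r) := pow_pos hθ0 _
  have hbadle : (bad.card : ℝ) ≤ ε * (Fintype.card (G.edgeSet → Bool) : ℝ) := by
    have h1 : (bad.card : ℝ) * θ ^ (2 * J * r) ≤
        (ε * (Fintype.card (G.edgeSet → Bool) : ℝ)) * θ ^ (2 * J * r) := by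
      refine le_trans hG ?_
      have h2 := mul_le_mul_of_nonneg_left hHn htot.le
      rw [← hndef]
      calc _ = (Fintype.card (G.edgeSet → Bool) : ℝ) * ((n : ℝ) *
            ((((2 * J * (2 * J + 1) + 1) * (d + 3) * (2 * J * r + 1) ^ 4 : ℕ) : ℝ) ^
            (2 * J * (2 * J + 1)) * lam ^ (2 * J * r))) := by ring
        _ ≤ _ := h2
        _ = _ := by ring
    exact le_of_mul_le_mul_right h1 hpow
  rw [le_div_iff₀ htot]
  have hgb' : (good.card : ℝ) + (bad.card : ℝ) = (Fintype.card (G.edgeSet → Bool) : ℝ) := by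
    exact_mod_cast hgb
  nlinarith

end Pool.Agent.H590R2.RS
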