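import Pool.Agent.H590R2.RS.Defs

set_option autoImplicit false

/-! Task MAIN: random signings of Ramanujan graphs. -/

namespace Pool.Agent.H590R2.RS

theorem localBound_mono {V : Type} [Fintype V] (G : SimpleGraph V) (R : ℕ) (a b : ℝ)
    (hab : a ≤ b) (h : LocalBound G R a) : LocalBound G R b := by
  intro x f hf
  refine (h x f hf).trans ?_
  exact mul_le_mul_of_nonneg_right hab (Finset.sum_nonneg fun u _ => sq_nonneg _)

theorem main_arith (d n : ℕ) (ε : ℝ) (hd : 3 ≤ d) (hε : 0 < ε) (hn0 : 1 ≤ n)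
    (hn : (2 * (d : ℝ) ^ 2 / ε) ^ 2 ≤ (n : ℝ)) :
    (d : ℝ) ^ (4 * (Nat.log d n / 20) + 2) / (n : ℝ) ≤ ε / 2 := by
  have hnpos : (0 : ℝ) < (n : ℝ) := by exact_mod_cast hn0
  set r := Nat.log d n / 20 with hr
  have h1 : d ^ (20 * r) ≤ n := by
    refine (Nat.pow_le_pow_right (by omega) ?_).trans (Nat.pow_log_le_self d (by omega : n ≠ 0))
    rw [hr]
    omega
  have h2 : d ^ (4 * r) * d ^ (4 * r) ≤ n := by
    rw [← pow_add]
    exact (Nat.pow_le_pow_right (by omega) (by omega)).trans h1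
  have h2' : (d : ℝ) ^ (4 * r) * (d : ℝ) ^ (4 * r) ≤ (n : ℝ) := by exact_mod_cast h2
  have hs : √(n : ℝ) * √(n : ℝ) = (n : ℝ) := Real.mul_self_sqrt hnpos.le
  have h3 : (d : ℝ) ^ (4 * r) ≤ √(n : ℝ) := by
    apply Real.le_sqrt_of_sq_le
    rw [sq]
    exact h2'
  have h4 : 2 * (d : ℝ) ^ 2 / ε ≤ √(n : ℝ) := Real.le_sqrt_of_sq_le hn
  have h5 : (d : ℝ) ^ 2 ≤ ε / 2 * √(n : ℝ) := by
    rw [div_le_iff₀ hε] at h4
    linarith
  rw [div_le_iff₀ hnpos, pow_add]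
  calc (d : ℝ) ^ (4 * r) * (d : ℝ) ^ 2 ≤ √(n : ℝ) * (ε / 2 * √(n : ℝ)) :=
        mul_le_mul h3 h5 (by positivity) (Real.sqrt_nonneg _)
    _ = ε / 2 * (√(n : ℝ) * √(n : ℝ)) := by ring
    _ = ε / 2 * (n : ℝ) := by rw [hs]

theorem MAIN (hLG : S_LG) (hG3 : S_G3) : S_MAIN := by
  intro d hd ε hε
  have hd' : (3 : ℝ) ≤ (d : ℝ) := by exact_mod_cast hd
  have hsq : 1 ≤ √((d : ℝ) - 1) := by
    apply Real.le_sqrt_of_sq_le
    linarith
  obtain ⟨n0, hn0⟩ := hLG d (2 * √((d : ℝ) - 1) + ε) (2 * √((d : ℝ) - 1) + ε / 2) ε hd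
    (by linarith) (by linarith) hε
  refine ⟨max n0 (⌈(2 * (d : ℝ) ^ 2 / ε) ^ 2⌉₊ + 1), ?_⟩
  intro V _ _ G hV hG
  obtain ⟨hdeg, hloc⟩ := hG3 V G d hd hG
  have hV0 : n0 ≤ Fintype.card V := (le_max_left _ _).trans hV
  have hV1 : ⌈(2 * (d : ℝ) ^ 2 / ε) ^ 2⌉₊ + 1 ≤ Fintype.card V := (le_max_right _ _).trans hV
  have hV2 : (2 * (d : ℝ) ^ 2 / ε) ^ 2 ≤ ((Fintype.card V : ℕ) : ℝ) := by
    refine (Nat.le_ceil _).trans ?_
    exact_mod_cast (Nat.le_succ _).trans hV1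
  have hV3 : 1 ≤ Fintype.card V := (Nat.le_add_left 1 _).trans hV1
  refine hn0 V G hV0 hdeg ?_
  refine localBound_mono G _ _ _ ?_ (hloc _)
  have := main_arith d (Fintype.card V) ε hd hε hV3 hV2
  linarith

end Pool.Agent.H590R2.RS
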