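import Mathlib
import Pool.Agent.H590R2.RS.Defs
import Pool.Agent.H590R2.RS.A1
import Pool.Agent.H590R2.RS.A2
import Pool.Agent.H590R2.RS.A3
import Pool.Agent.H590R2.RS.A4
import Pool.Agent.H590R2.RS.B0
import Pool.Agent.H590R2.RS.BR
import Pool.Agent.H590R2.RS.BJ
import Pool.Agent.H590R2.RS.BS
import Pool.Agent.H590R2.RS.BM
import Pool.Agent.H590R2.RS.C0
import Pool.Agent.H590R2.RS.C1
import Pool.Agent.H590R2.RS.C2
import Pool.Agent.H590R2.RS.D1
import Pool.Agent.H590R2.RS.D2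
import Pool.Agent.H590R2.RS.D3
import Pool.Agent.H590R2.RS.D
import Pool.Agent.H590R2.RS.E1
import Pool.Agent.H590R2.RS.E2
import Pool.Agent.H590R2.RS.E
import Pool.Agent.H590R2.RS.F
import Pool.Agent.H590R2.RS.GEN
import Pool.Agent.H590R2.RS.G0
import Pool.Agent.H590R2.RS.G1
import Pool.Agent.H590R2.RS.G2
import Pool.Agent.H590R2.RS.G3
import Pool.Agent.H590R2.RS.H
import Pool.Agent.H590R2.RS.LG
import Pool.Agent.H590R2.RS.MAIN

namespace Pool.Agent.H590R2.RS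

theorem tBM : S_BM := BM (B0 A1 A3) (BR A1 A2) BJ BS
theorem tC1 : S_C1 := C1 C0 A3 A4
theorem tC2 : S_C2 := C2 tBM tC1
theorem tD : S_D := D (D1 A1) D2 D3 A4
theorem tE : S_E := E E1 E2
theorem tGEN : S_GEN := GEN tC2 tD tE F
theorem tG3 : S_G3 := G3 G1 (G2 G0)
theorem tLG : S_LG := LG tGEN H
theorem tMAIN : S_MAIN := MAIN tLG tG3

end Pool.Agent.H590R2.RS
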