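import Mathlib
import Pool.Agent.H590R2.RS.Defs

/-!
Random signings, second part: balls of radius `A (log log n)^2` are enough.
-/

namespace Pool.Agent.H590R2.RS

/-- RG: region growing. A labelling with labels within distance `r` and few crossing steps. -/
def S_RG : Prop := ∀ (V : Type) (G : SimpleGraph V) (r : ℕ) (a : ℝ) (x y : V) (l : List V),
  0 < a → ((l.length : ℝ) + 1) ≤ (1 + a) ^ r → isW G x l y →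
  ∃ c : V → V, (∀ z ∈ x :: l, Near G r z (c z)) ∧
    (cr c x l : ℝ) ≤ 2 * a * ((l.length : ℝ) + 1)

open Classical in
/-- GEN2: the general local-to-global inequality with balls of radius `2 r` -/
def S_GEN2 : Prop := ∀ (V : Type) [Fintype V] [DecidableEq V] (G : SimpleGraph V)
    (r K L d : ℕ) (a lam θ : ℝ), 0 < a → Even L → 1 ≤ lam → 0 ≤ θ →
  LocalBound G (2 * r) lam → (∀ u, {w | G.Adj u w}.ncard ≤ d) →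
  ((L : ℝ) + 1) ≤ (1 + a) ^ r → 2 * a * ((L : ℝ) + 1) ≤ K →
  ((Finset.univ.filter fun σ : G.edgeSet → Bool => ∃ μ ∈ spectrum ℝ (SM G σ), θ ≤ |μ|).card : ℝ)
    * θ ^ L ≤ (Fintype.card (G.edgeSet → Bool) : ℝ) * (Fintype.card V : ℝ) *
      ((((K + 1) * (d + 3) * (L + 1) ^ 4 : ℕ) : ℝ) ^ K * lam ^ L)

/-- H2a: choice of `r, K, a` for given `L` -/
def S_H2a : Prop := ∀ (d : ℕ) (q : ℝ), 0 < q → ∃ C : ℝ, 0 < C ∧ ∃ L0 : ℕ, ∀ L : ℕ, L0 ≤ L →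
  ∃ (r K : ℕ) (a : ℝ), 0 < a ∧ (r : ℝ) ≤ C * Real.log ((L : ℝ) + 1) ^ 2 ∧
    ((L : ℝ) + 1) ≤ (1 + a) ^ r ∧ 2 * a * ((L : ℝ) + 1) ≤ K ∧
    (((K + 1) * (d + 3) * (L + 1) ^ 4 : ℕ) : ℝ) ^ K ≤ Real.exp (q * L / 2)

/-- H2: choice of the parameters (from H2a) -/
def S_H2 : Prop := ∀ (d : ℕ) (η : ℝ), 0 < η → ∃ A : ℝ, 0 < A ∧ ∀ ε : ℝ, 0 < ε →
  ∃ n0 : ℕ, ∀ n : ℕ, n0 ≤ n → ∃ (L r K : ℕ) (a : ℝ), Even L ∧ 0 < a ∧
    (2 * r : ℝ) ≤ A * Real.log (Real.log n) ^ 2 ∧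
    ((L : ℝ) + 1) ≤ (1 + a) ^ r ∧ 2 * a * ((L : ℝ) + 1) ≤ K ∧
    (n : ℝ) * (((K + 1) * (d + 3) * (L + 1) ^ 4 : ℕ) : ℝ) ^ K ≤ ε * (1 + η) ^ L

open Classical in
/-- LG2: local-to-global with balls of radius `A (log log n)^2` (from GEN2, H2) -/
def S_LG2 : Prop := ∀ (d : ℕ) (η : ℝ), 0 < η → ∃ A : ℝ, 0 < A ∧ ∀ ε : ℝ, 0 < ε →
  ∃ n0 : ℕ, ∀ (V : Type) [Fintype V] [DecidableEq V] (G : SimpleGraph V) (lam : ℝ) (R : ℕ),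
  n0 ≤ Fintype.card V → (∀ u, {w | G.Adj u w}.ncard ≤ d) → 1 ≤ lam →
  A * Real.log (Real.log (Fintype.card V)) ^ 2 ≤ R → LocalBound G R lam →
  1 - ε ≤ ((Finset.univ.filter fun σ : G.edgeSet → Bool =>
      ∀ μ ∈ spectrum ℝ (SM G σ), |μ| < (1 + η) * lam).card : ℝ) /
    (Fintype.card (G.edgeSet → Bool) : ℝ)

end Pool.Agent.H590R2.RS
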