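import Pool.Agent.H590R2.RS.Defs2

set_option autoImplicit false

namespace Pool.Agent.H590R2.RS

theorem GEN2 (hC2 : S_C2) (hRG : S_RG) (hE : S_E) (hF : S_F) : S_GEN2 := by
  classical
  intro V _ _ G r K L d a lam θ ha hL hlam hθ hloc hdeg hr hK
  have h1 := hF V G L θ hL hθ
  have h2 := hE V G L
  have h3 : ∀ x : V, ({l : List V | l.length = L ∧ isW G x l x ∧
      ∀ e, Even ((edg x l).count e)}.ncard : ℝ) ≤
      (((K + 1) * (d + 3) * (L + 1) ^ 4 : ℕ) : ℝ) ^ K * lam ^ L := by
    intro x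
    have hsub : {l : List V | l.length = L ∧ isW G x l x ∧ ∀ e, Even ((edg x l).count e)} ⊆
        W G r K L x := by
      rintro l ⟨hl1, hl2, hl3⟩
      obtain ⟨c, hc1, hc2⟩ := hRG V G r a x x l ha (by rw [hl1]; exact hr) hl2
      refine ⟨hl1, hl2, c, hc1, fun u v _ => ?_, ?_⟩
      · convert hl3 s(u, v)
      · rw [hl1] at hc2
        exact_mod_cast hc2.trans hK
    have hfin : (W G r K L x).Finite :=
      (List.finite_length_eq V L).subset fun l hl => hl.1
    have h4 : ({l : List V | l.length = L ∧ isW G x l x ∧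
        ∀ e, Even ((edg x l).count e)}.ncard : ℝ) ≤ ((W G r K L x).ncard : ℝ) := by
      exact_mod_cast Set.ncard_le_ncard hsub hfin
    refine h4.trans ?_
    exact hC2 V G r K L d lam hlam hloc hdeg K le_rfl L le_rfl x
  refine h1.trans (h2.trans ?_)
  rw [mul_assoc]
  apply mul_le_mul_of_nonneg_left _ (Nat.cast_nonneg _)
  refine (Finset.sum_le_sum fun x _ => h3 x).trans ?_
  rw [Finset.sum_const, nsmul_eq_mul, Finset.card_univ]

end Pool.Agent.H590R2.RS
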