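import Pool.Agent.H590R2.RS.Defs2

set_option autoImplicit false

namespace Pool.Agent.H590R2.RS

theorem H2 (hH2a : S_H2a) : S_H2 := by
  intro d η hη
  set q : ℝ := Real.log (1 + η) with hq
  have hq0 : 0 < q := Real.log_pos (by linarith)
  obtain ⟨C, hC, L0, hL0⟩ := hH2a d q hq0
  refine ⟨8 * C, by positivity, ?_⟩
  intro ε hε
  have tlog : Filter.Tendsto (fun n : ℕ => Real.log (n : ℝ)) Filter.atTop Filter.atTop :=
    Real.tendsto_log_atTop.comp tendsto_natCast_atTop_atTop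
  have e1 : ∀ᶠ n : ℕ in Filter.atTop, (4 / q + 3 : ℝ) ≤ Real.log (n : ℝ) :=
    tlog.eventually_ge_atTop _
  have e2 : ∀ᶠ n : ℕ in Filter.atTop, (q * L0 : ℝ) ≤ Real.log (n : ℝ) :=
    tlog.eventually_ge_atTop _
  have e3 : ∀ᶠ n : ℕ in Filter.atTop, (1 / ε : ℝ) ≤ (n : ℝ) :=
    tendsto_natCast_atTop_atTop.eventually_ge_atTop _
  have e4 : ∀ᶠ n : ℕ in Filter.atTop, 1 ≤ n := Filter.eventually_ge_atTop 1
  obtain ⟨n0, hn0⟩ := ((e1.and e2).and (e3.and e4)).exists_forall_of_atTop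
  refine ⟨n0, fun n hn => ?_⟩
  obtain ⟨⟨h1, h2⟩, h3, h4⟩ := hn0 n hn
  set x : ℝ := Real.log (n : ℝ) with hx
  have hn1 : (1 : ℝ) ≤ n := by exact_mod_cast h4
  have hnpos : (0 : ℝ) < n := by linarith
  have h4q : 0 < 4 / q := by positivity
  have hx0 : 0 < x := by linarith
  have hx1 : 1 ≤ x := by linarith
  set m : ℕ := ⌈(2 / q) * x⌉₊ with hm
  have hm1 : (2 / q) * x ≤ m := Nat.le_ceil _
  have hm2 : (m : ℝ) ≤ (2 / q) * x + 1 := (Nat.ceil_lt_add_one (by positivity)).le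
  have hLge : L0 ≤ 2 * m := by
    have : (L0 : ℝ) ≤ ((2 * m : ℕ) : ℝ) := by
      push_cast
      have h5 : (L0 : ℝ) ≤ x / q := by
        rw [le_div_iff₀ hq0]; linarith [mul_comm q (L0 : ℝ)]
      have h6 : x / q ≤ 2 * ((2 / q) * x) := by
        have : x / q = (1 / q) * x := by ring
        rw [this]
        have h7 : 0 < (1 / q) * x := by positivity
        have h8 : 2 * ((2 / q) * x) = 4 * ((1 / q) * x) := by ring
        rw [h8]; linarith
      linarith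
    exact_mod_cast this
  obtain ⟨r, K, a, ha, hr, hM, hK, hB⟩ := hL0 (2 * m) hLge
  refine ⟨2 * m, r, K, a, ⟨m, by ring⟩, ha, ?_, hM, hK, ?_⟩
  · -- radius
    have hL1 : (((2 * m : ℕ) : ℝ) + 1) ≤ x ^ 2 := by
      push_cast
      have h5 : 2 * (m : ℝ) + 1 ≤ (4 / q) * x + 3 := by
        have : 2 * ((2 / q) * x) = (4 / q) * x := by ring
        linarith
      have h6 : (4 / q) * x + 3 ≤ x ^ 2 := by nlinarith
      linarith
    have hL1pos : (0 : ℝ) < ((2 * m : ℕ) : ℝ) + 1 := by positivity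
    have h7 : Real.log (((2 * m : ℕ) : ℝ) + 1) ≤ 2 * Real.log x := by
      calc Real.log (((2 * m : ℕ) : ℝ) + 1) ≤ Real.log (x ^ 2) :=
            Real.log_le_log hL1pos hL1
        _ = 2 * Real.log x := by rw [Real.log_pow]; norm_num
    have h8 : 0 ≤ Real.log (((2 * m : ℕ) : ℝ) + 1) := Real.log_nonneg (by
      have : (0 : ℝ) ≤ ((2 * m : ℕ) : ℝ) := Nat.cast_nonneg _
      linarith)
    have h9 : Real.log (((2 * m : ℕ) : ℝ) + 1) ^ 2 ≤ (2 * Real.log x) ^ 2 :=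
      pow_le_pow_left₀ h8 h7 2
    calc (2 * r : ℝ) ≤ 2 * (C * Real.log (((2 * m : ℕ) : ℝ) + 1) ^ 2) := by linarith
      _ ≤ 2 * (C * (2 * Real.log x) ^ 2) := by
          have := mul_le_mul_of_nonneg_left h9 hC.le
          linarith
      _ = 8 * C * Real.log x ^ 2 := by ring
  · -- main bound
    have hB2 : (n : ℝ) * (((K + 1) * (d + 3) * (2 * m + 1) ^ 4 : ℕ) : ℝ) ^ K ≤
        n * Real.exp (q * ((2 * m : ℕ) : ℝ) / 2) := mul_le_mul_of_nonneg_left hB hnpos.le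
    refine hB2.trans ?_
    have hE : (1 + η) ^ (2 * m) = Real.exp (q * ((2 * m : ℕ) : ℝ) / 2) *
        Real.exp (q * ((2 * m : ℕ) : ℝ) / 2) := by
      rw [← Real.exp_add]
      have : q * ((2 * m : ℕ) : ℝ) / 2 + q * ((2 * m : ℕ) : ℝ) / 2 = q * ((2 * m : ℕ) : ℝ) := by ring
      rw [this, Real.exp_mul, hq, Real.exp_log (by linarith), Real.rpow_natCast]
    rw [hE, ← mul_assoc]
    apply mul_le_mul_of_nonneg_right _ (Real.exp_pos _).le
    -- n ≤ ε * exp (q L / 2)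
    have h10 : (n : ℝ) ^ 2 ≤ Real.exp (q * ((2 * m : ℕ) : ℝ) / 2) := by
      have h11 : 2 * x ≤ q * ((2 * m : ℕ) : ℝ) / 2 := by
        push_cast
        have h12 : q * ((2 / q) * x) = 2 * x := by field_simp
        have h13 : q * ((2 / q) * x) ≤ q * m := mul_le_mul_of_nonneg_left hm1 hq0.le
        linarith
      calc (n : ℝ) ^ 2 = Real.exp (2 * x) := by
            rw [two_mul, Real.exp_add, hx, Real.exp_log hnpos]; ring
        _ ≤ _ := Real.exp_le_exp.mpr h11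
    have h14 : (n : ℝ) ≤ ε * (n : ℝ) ^ 2 := by
      have h15 : 1 ≤ ε * n := by
        rw [div_le_iff₀ hε] at h3
        linarith [mul_comm (n : ℝ) ε]
      nlinarith
    exact h14.trans (mul_le_mul_of_nonneg_left h10 hε.le)

end Pool.Agent.H590R2.RS
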