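import Pool.Agent.H590R2.RS.Defs2

set_option autoImplicit false

namespace Pool.Agent.H590R2.RS

/-- `log (1 + a) ≥ a / 2` for `0 ≤ a ≤ 1` -/
private lemma half_le_log {a : ℝ} (h0 : 0 < a) (h1 : a ≤ 1) : a / 2 ≤ Real.log (1 + a) := by
  have h := Real.one_sub_inv_le_log_of_pos (x := 1 + a) (by linarith)
  refine le_trans ?_ h
  rw [show (1 : ℝ) - (1 + a)⁻¹ = a / (1 + a) by field_simp; ring]
  rw [div_le_div_iff₀ (by norm_num) (by linarith)]
  nlinarith

theorem H2a : S_H2a := by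
  intro d q hq
  set c : ℝ := min (q / 100) 1 with hc
  have hc0 : 0 < c := lt_min (by positivity) one_pos
  have hcq : c ≤ q / 100 := min_le_left _ _
  have hc1 : c ≤ 1 := min_le_right _ _
  refine ⟨2 / c + 1, by positivity, ?_⟩
  -- eventually statements
  have e1 : ∀ᶠ L : ℕ in Filter.atTop, (1 : ℝ) ≤ Real.log ((L : ℝ) + 1) := by
    have : Filter.Tendsto (fun L : ℕ => Real.log ((L : ℝ) + 1)) Filter.atTop Filter.atTop :=
      Real.tendsto_log_atTop.comp
        (Filter.tendsto_atTop_add_const_right _ _ tendsto_natCast_atTop_atTop)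
    exact this.eventually_ge_atTop 1
  have e2 : ∀ᶠ L : ℕ in Filter.atTop, Real.log ((L : ℝ) + 1) ≤ (q / 24) * ((L : ℝ) + 1) := by
    have h := Real.isLittleO_log_id_atTop.bound (c := q / 24) (by positivity)
    have ht : Filter.Tendsto (fun L : ℕ => ((L : ℝ) + 1)) Filter.atTop Filter.atTop :=
      Filter.tendsto_atTop_add_const_right _ _ tendsto_natCast_atTop_atTop
    have h' := ht.eventually h
    filter_upwards [h'] with L hL
    have hpos : (0 : ℝ) ≤ (L : ℝ) + 1 := by positivity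
    have hlog : 0 ≤ Real.log ((L : ℝ) + 1) := Real.log_nonneg (by
      have : (0 : ℝ) ≤ L := Nat.cast_nonneg L
      linarith)
    simpa [Real.norm_eq_abs, abs_of_nonneg hpos, abs_of_nonneg hlog] using hL
  have e3 : ∀ᶠ L : ℕ in Filter.atTop, d + 8 ≤ L := Filter.eventually_ge_atTop _
  -- K ≤ L eventually: 2 c (L+1)/log(L+1) + 1 ≤ L
  have e4 : ∀ᶠ L : ℕ in Filter.atTop, (4 : ℝ) ≤ Real.log ((L : ℝ) + 1) := by
    have : Filter.Tendsto (fun L : ℕ => Real.log ((L : ℝ) + 1)) Filter.atTop Filter.atTop :=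
      Real.tendsto_log_atTop.comp
        (Filter.tendsto_atTop_add_const_right _ _ tendsto_natCast_atTop_atTop)
    exact this.eventually_ge_atTop 4
  have e5 : ∀ᶠ L : ℕ in Filter.atTop, (50 : ℝ) ≤ (L : ℝ) := tendsto_natCast_atTop_atTop.eventually_ge_atTop 50
  obtain ⟨L0, hL0⟩ := (((e1.and e2).and e3).and (e4.and e5)).exists_forall_of_atTop
  refine ⟨L0, fun L hL => ?_⟩
  obtain ⟨⟨⟨h1, h2⟩, h3⟩, h4, h5⟩ := hL0 L hL
  set M : ℝ := (L : ℝ) + 1 with hM
  have hM0 : 0 < M := by positivity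
  set lg : ℝ := Real.log M with hlg
  have hlg0 : 0 < lg := by linarith
  set a : ℝ := c / lg with ha
  have ha0 : 0 < a := by positivity
  have ha1 : a ≤ 1 := by
    rw [ha, div_le_one hlg0]; linarith
  refine ⟨⌈(2 / c) * lg ^ 2⌉₊, ⌈2 * a * M⌉₊, a, ha0, ?_, ?_, Nat.le_ceil _, ?_⟩
  · have hx : (0 : ℝ) ≤ 2 / c * lg ^ 2 := by positivity
    have := (Nat.ceil_lt_add_one hx).le
    nlinarith [sq_nonneg (lg - 1)]
  · -- M ≤ (1+a)^r
    have hr : (2 / c) * lg ^ 2 ≤ (⌈(2 / c) * lg ^ 2⌉₊ : ℝ) := Nat.le_ceil _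
    have hl := half_le_log ha0 ha1
    have : lg ≤ (⌈(2 / c) * lg ^ 2⌉₊ : ℝ) * Real.log (1 + a) := by
      calc lg = (2 / c) * lg ^ 2 * (a / 2) := by
            rw [ha]; field_simp
        _ ≤ (⌈(2 / c) * lg ^ 2⌉₊ : ℝ) * Real.log (1 + a) :=
            mul_le_mul hr hl (by positivity) (Nat.cast_nonneg _)
    rw [← Real.exp_log hM0, ← hlg]
    calc Real.exp lg ≤ Real.exp ((⌈(2 / c) * lg ^ 2⌉₊ : ℝ) * Real.log (1 + a)) :=
          Real.exp_le_exp.mpr this
      _ = (1 + a) ^ ⌈(2 / c) * lg ^ 2⌉₊ := by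
          rw [mul_comm, Real.exp_mul, Real.exp_log (by linarith), Real.rpow_natCast]
  · -- base bound
    set K : ℕ := ⌈2 * a * M⌉₊ with hK
    have hKle : (K : ℝ) ≤ 2 * a * M + 1 := (Nat.ceil_lt_add_one (by positivity)).le
    have haM : a * M ≤ M / 4 := by
      rw [ha, div_mul_eq_mul_div, div_le_div_iff₀ hlg0 (by norm_num)]
      nlinarith
    have hKL : (K : ℝ) + 1 ≤ M := by
      have : (K : ℝ) ≤ M / 2 + 1 := by linarith
      have : (50 : ℝ) + 1 ≤ M := by rw [hM]; linarith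
      linarith
    have hdL : ((d : ℝ) + 3) ≤ M := by
      have : ((d + 8 : ℕ) : ℝ) ≤ L := by exact_mod_cast h3
      push_cast at this
      rw [hM]; linarith
    have hbase : (((K + 1) * (d + 3) * (L + 1) ^ 4 : ℕ) : ℝ) ≤ M ^ 6 := by
      push_cast
      calc ((K : ℝ) + 1) * ((d : ℝ) + 3) * ((L : ℝ) + 1) ^ 4 ≤ M * M * M ^ 4 := by
            apply mul_le_mul _ (le_of_eq rfl) (by positivity) (by positivity)
            exact mul_le_mul hKL hdL (by positivity) hM0.le
        _ = M ^ 6 := by ring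
    have hb0 : (0 : ℝ) ≤ (((K + 1) * (d + 3) * (L + 1) ^ 4 : ℕ) : ℝ) := Nat.cast_nonneg _
    calc (((K + 1) * (d + 3) * (L + 1) ^ 4 : ℕ) : ℝ) ^ K ≤ (M ^ 6) ^ K :=
          pow_le_pow_left₀ hb0 hbase K
      _ = Real.exp ((6 * K : ℕ) * lg) := by
          rw [← pow_mul, hlg, mul_comm ((6 * K : ℕ) : ℝ), Real.exp_mul, Real.exp_log hM0,
            Real.rpow_natCast]
      _ ≤ Real.exp (q * L / 2) := by
          apply Real.exp_le_exp.mpr
          push_cast
          have h6 : (6 * (K : ℝ)) * lg ≤ 6 * (2 * a * M + 1) * lg := by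
            have := mul_le_mul_of_nonneg_right hKle hlg0.le
            nlinarith
          have h7 : 6 * (2 * a * M + 1) * lg = 12 * c * M + 6 * lg := by
            rw [ha]; field_simp; ring
          rw [h7] at h6
          have h8 : 12 * c * M ≤ 12 * (q / 100) * M := by
            have := mul_le_mul_of_nonneg_right hcq hM0.le
            nlinarith
          have hLM : (L : ℝ) = M - 1 := by rw [hM]; ring
          have hM51 : (51 : ℝ) ≤ M := by rw [hM]; linarith
          rw [hLM]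
          nlinarith [mul_pos hq hM0, mul_le_mul_of_nonneg_left hM51 hq.le]

end Pool.Agent.H590R2.RS
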