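import Pool.Agent.H590R2.RS.Defs2

namespace Pool.Agent.H590R2.RS

open Classical in
theorem LG2 (hGEN2 : S_GEN2) (hH2 : S_H2) : S_LG2 := by
  intro d η hη
  obtain ⟨A, hA, hA2⟩ := hH2 d η hη
  refine ⟨A, hA, ?_⟩
  intro ε hε
  obtain ⟨n0, hn0⟩ := hA2 ε hε
  refine ⟨n0, ?_⟩
  intro V _ _ G lam R hn hdeg hlam hR hloc
  obtain ⟨L, r, K, a, hEven, ha, hr, h1, h2, h3⟩ := hn0 (Fintype.card V) hn
  have h2rR : 2 * r ≤ R := by
    have : ((2 * r : ℕ) : ℝ) ≤ R := by
      push_cast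
      exact hr.trans hR
    exact_mod_cast this
  have hloc' : LocalBound G (2 * r) lam := by
    intro x f hf
    refine hloc x f fun y hy => ?_
    obtain ⟨l, hl1, hl2⟩ := hf y hy
    exact ⟨l, hl1.trans h2rR, hl2⟩
  set θ := (1 + η) * lam with hθdef
  have hθ0 : 0 < θ := by
    rw [hθdef]; positivity
  have hG := hGEN2 V G r K L d a lam θ ha hEven hlam hθ0.le hloc' hdeg h1 h2
  set bad := (Finset.univ.filter fun σ : G.edgeSet → Bool =>
    ∃ μ ∈ spectrum ℝ (SM G σ), θ ≤ |μ|) with hbad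
  set good := (Finset.univ.filter fun σ : G.edgeSet → Bool =>
      ∀ μ ∈ spectrum ℝ (SM G σ), |μ| < θ) with hgood
  have hgb : good.card + bad.card = Fintype.card (G.edgeSet → Bool) := by
    have h1 : bad = (Finset.univ.filter fun σ : G.edgeSet → Bool =>
        ¬ ∀ μ ∈ spectrum ℝ (SM G σ), |μ| < θ) := by
      rw [hbad]
      apply Finset.filter_congr
      intro σ _
      push Not
      rfl
    rw [h1, hgood, Finset.card_filter_add_card_filter_not, Finset.card_univ]
  have htot : (0 : ℝ) < (Fintype.card (G.edgeSet → Bool) : ℝ) := by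
    exact_mod_cast Fintype.card_pos
  have hpow : (0 : ℝ) < θ ^ L := pow_pos hθ0 _
  have hlamL : (0 : ℝ) < lam ^ L := pow_pos (by linarith) _
  have hbadle : (bad.card : ℝ) ≤ ε * (Fintype.card (G.edgeSet → Bool) : ℝ) := by
    have h1 : (bad.card : ℝ) * θ ^ L ≤
        (ε * (Fintype.card (G.edgeSet → Bool) : ℝ)) * θ ^ L := by
      refine le_trans hG ?_
      have h4 := mul_le_mul_of_nonneg_left (mul_le_mul_of_nonneg_right h3 hlamL.le) htot.le
      calc _ = (Fintype.card (G.edgeSet → Bool) : ℝ) * ((Fintype.card V : ℝ) *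
            (((K + 1) * (d + 3) * (L + 1) ^ 4 : ℕ) : ℝ) ^ K * lam ^ L) := by ring
        _ ≤ _ := h4
        _ = _ := by rw [hθdef, mul_pow]; ring
    exact le_of_mul_le_mul_right h1 hpow
  rw [le_div_iff₀ htot]
  have hgb' : (good.card : ℝ) + (bad.card : ℝ) = (Fintype.card (G.edgeSet → Bool) : ℝ) := by
    exact_mod_cast hgb
  nlinarith

end Pool.Agent.H590R2.RS
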