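import Pool.Agent.H590R2.RS.Defs2

namespace Pool.Agent.H590R2.RS

theorem RG_adj {V : Type} (G : SimpleGraph V) : ∀ (l : List V) (x y : V), isW G x l y →
    ∀ t < l.length, G.Adj (vt x l t) (vt x l (t + 1))
  | [], _, _, _, t, ht => by simp at ht
  | a :: l, x, y, h, 0, _ => h.1
  | a :: l, x, y, h, t + 1, ht =>
    RG_adj G l a y h.2 t (by simpa using ht)

open Classical in
theorem RG_main (hA4 : S_A4) {V : Type} (G : SimpleGraph V) (r : ℕ) (a : ℝ) (w : ℕ → V) (L : ℕ)
    (ha : 0 < a) (hr : 1 ≤ r) (hL : ((L : ℝ) + 1) ≤ (1 + a) ^ r)
    (hadj : ∀ t < L, G.Adj (w t) (w (t + 1))) :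
    ∀ (n : ℕ) (U : Set V), ((Finset.range (L + 1)).filter fun t => w t ∈ U).card ≤ n →
    ∃ c : V → V, (∀ t ≤ L, w t ∈ U → Near G r (w t) (c (w t))) ∧
      ((((Finset.range L).filter fun t => w t ∈ U ∧ w (t + 1) ∈ U ∧ c (w t) ≠ c (w (t + 1))).card : ℕ) : ℝ)
        ≤ 2 * a * (((Finset.range (L + 1)).filter fun t => w t ∈ U).card : ℕ) := by
  intro n
  induction n with
  | zero =>
    intro U hU
    have h0 : ∀ t ≤ L, w t ∉ U := by
      intro t ht hU'
      have hm : t ∈ (Finset.range (L + 1)).filter fun t => w t ∈ U :=
        Finset.mem_filter.2 ⟨Finset.mem_range.2 (by omega), hU'⟩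
      have := Finset.card_pos.2 ⟨t, hm⟩
      omega
    refine ⟨id, fun t ht h => absurd h (h0 t ht), ?_⟩
    have : ((Finset.range L).filter fun t => w t ∈ U ∧ w (t + 1) ∈ U ∧ id (w t) ≠ id (w (t + 1))) = ∅ := by
      rw [Finset.filter_eq_empty_iff]
      intro t ht h
      exact h0 t (by rw [Finset.mem_range] at ht; omega) h.1
    rw [this]
    simp only [Finset.card_empty, Nat.cast_zero]
    positivity
  | succ n ih =>
    intro U hU
    by_cases hex : ∃ t0 ≤ L, w t0 ∈ U
    · obtain ⟨t0, ht0, hp⟩ := hex
      set p : V := w t0 with hpdef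
      set N : ℕ → ℕ := fun R => ((Finset.range (L + 1)).filter fun t => w t ∈ U ∧ Near G R p (w t)).card with hN
      have hN0 : 1 ≤ N 0 := by
        apply Finset.card_pos.2
        exact ⟨t0, Finset.mem_filter.2 ⟨Finset.mem_range.2 (by omega), hp, (hA4 V G 0 0 p p p).1⟩⟩
      have hNL : ∀ R, N R ≤ L + 1 := by
        intro R
        refine (Finset.card_filter_le _ _).trans ?_
        rw [Finset.card_range]
      obtain ⟨R, hR, hRN⟩ : ∃ R < r, (N (R + 1) : ℝ) ≤ (1 + a) * N R := by
        by_contra hcon
        push Not at hcon
        have hg : ∀ R ≤ r, (1 + a) ^ R ≤ (N R : ℝ) := by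
          intro R
          induction R with
          | zero => intro _; rw [pow_zero]; exact_mod_cast hN0
          | succ R ihR =>
            intro hR
            have h1 := ihR (by omega)
            have h2 := hcon R (by omega)
            rw [pow_succ]
            calc (1 + a) ^ R * (1 + a) ≤ (N R : ℝ) * (1 + a) :=
                  mul_le_mul_of_nonneg_right h1 (by linarith)
              _ = (1 + a) * N R := by ring
              _ ≤ _ := h2.le
        have h3 := hcon (r - 1) (by omega)
        have h4 := hg (r - 1) (by omega)
        have h5 : r - 1 + 1 = r := by omega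
        rw [h5] at h3
        have h6 : (1 + a) ^ r < (N r : ℝ) := by
          calc (1 + a) ^ r = (1 + a) * (1 + a) ^ (r - 1) := by
                rw [← pow_succ', h5]
            _ ≤ (1 + a) * N (r - 1) := mul_le_mul_of_nonneg_left h4 (by linarith)
            _ < _ := h3
        have h7 : (N r : ℝ) ≤ (L : ℝ) + 1 := by exact_mod_cast hNL r
        linarith
      obtain ⟨U', hmem⟩ : ∃ U' : Set V, ∀ z, z ∈ U' ↔ z ∈ U ∧ ¬ Near G R p z :=
        ⟨{z | z ∈ U ∧ ¬ Near G R p z}, fun z => Iff.rfl⟩
      have hpp : Near G R p p := (hA4 V G 0 R p p p).2.1 (hA4 V G 0 0 p p p).1 (Nat.zero_le _)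
      -- cardinalities
      have hcard : ((Finset.range (L + 1)).filter fun t => w t ∈ U').card + N R =
          ((Finset.range (L + 1)).filter fun t => w t ∈ U).card := by
        rw [← Finset.card_filter_add_card_filter_not (s := (Finset.range (L + 1)).filter fun t => w t ∈ U)
          (fun t => Near G R p (w t)), Finset.filter_filter, Finset.filter_filter, add_comm]
        congr 1
        congr 1
        apply Finset.filter_congr
        intro t _
        exact hmem _
      have hNR : 1 ≤ N R := by
        apply Finset.card_pos.2
        exact ⟨t0, Finset.mem_filter.2 ⟨Finset.mem_range.2 (by omega), hp, hpp⟩⟩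
      obtain ⟨c', hc1, hc2⟩ := ih U' (by omega)
      refine ⟨fun z => if Near G R p z then p else c' z, ?_, ?_⟩
      · intro t ht htU
        by_cases hb : Near G R p (w t)
        · simp only [if_pos hb]
          exact (hA4 V G R r (w t) p p).2.1 ((hA4 V G R r p (w t) p).2.2.1 hb) (by omega)
        · simp only [if_neg hb]
          exact hc1 t ht ((hmem _).2 ⟨htU, hb⟩)
      · set S : Finset ℕ := (Finset.range (L + 1)).filter fun t => w t ∈ U ∧ Near G (R + 1) p (w t) ∧
          ¬ Near G R p (w t) with hS
        have hSc : S.card + N R = N (R + 1) := by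
          have e1 : ((Finset.range (L + 1)).filter fun t => w t ∈ U ∧ Near G (R + 1) p (w t)).filter
              (fun t => Near G R p (w t)) =
              (Finset.range (L + 1)).filter fun t => w t ∈ U ∧ Near G R p (w t) := by
            rw [Finset.filter_filter]
            apply Finset.filter_congr
            intro t _
            constructor
            · rintro ⟨⟨h1, _⟩, h3⟩; exact ⟨h1, h3⟩
            · rintro ⟨h1, h3⟩
              exact ⟨⟨h1, (hA4 V G R (R + 1) p (w t) p).2.1 h3 (Nat.le_succ R)⟩, h3⟩
          have e2 : ((Finset.range (L + 1)).filter fun t => w t ∈ U ∧ Near G (R + 1) p (w t)).filter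
              (fun t => ¬ Near G R p (w t)) = S := by
            rw [Finset.filter_filter, hS]
            apply Finset.filter_congr
            intro t _
            tauto
          have e3 := Finset.card_filter_add_card_filter_not
            (s := (Finset.range (L + 1)).filter fun t => w t ∈ U ∧ Near G (R + 1) p (w t))
            (fun t => Near G R p (w t))
          rw [e1, e2] at e3
          simp only [hN]
          omega
        have hsub : ((Finset.range L).filter fun t => w t ∈ U ∧ w (t + 1) ∈ U ∧
            (if Near G R p (w t) then p else c' (w t)) ≠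
              (if Near G R p (w (t + 1)) then p else c' (w (t + 1)))) ⊆
            ((Finset.range L).filter fun t => w t ∈ U' ∧ w (t + 1) ∈ U' ∧ c' (w t) ≠ c' (w (t + 1))) ∪
              (S ∪ (Finset.range L).filter fun t => t + 1 ∈ S) := by
          intro t ht
          rw [Finset.mem_filter, Finset.mem_range] at ht
          obtain ⟨htL, h1, h2, h3⟩ := ht
          have had := hadj t htL
          rw [Finset.mem_union, Finset.mem_union]
          by_cases hb1 : Near G R p (w t)
          · by_cases hb2 : Near G R p (w (t + 1))
            · rw [if_pos hb1, if_pos hb2] at h3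
              exact absurd rfl h3
            · right; right
              rw [Finset.mem_filter, Finset.mem_range]
              refine ⟨htL, ?_⟩
              rw [hS, Finset.mem_filter, Finset.mem_range]
              exact ⟨by omega, h2, (hA4 V G R 0 p (w t) (w (t + 1))).2.2.2.2 hb1 had, hb2⟩
          · by_cases hb2 : Near G R p (w (t + 1))
            · right; left
              rw [hS, Finset.mem_filter, Finset.mem_range]
              exact ⟨by omega, h1, (hA4 V G R 0 p (w (t + 1)) (w t)).2.2.2.2 hb2 had.symm, hb1⟩
            · left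
              rw [if_neg hb1, if_neg hb2] at h3
              rw [Finset.mem_filter, Finset.mem_range]
              exact ⟨htL, (hmem _).2 ⟨h1, hb1⟩, (hmem _).2 ⟨h2, hb2⟩, h3⟩
        have hS2 : ((Finset.range L).filter fun t => t + 1 ∈ S).card ≤ S.card := by
          apply Finset.card_le_card_of_injOn (fun t => t + 1)
          · intro t ht
            exact (Finset.mem_filter.1 ht).2
          · intro t _ t' _ h
            simpa using h
        have h1 := Finset.card_le_card hsub
        have h2 := Finset.card_union_le ((Finset.range L).filter fun t => w t ∈ U' ∧ w (t + 1) ∈ U' ∧ c' (w t) ≠ c' (w (t + 1)))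
          (S ∪ (Finset.range L).filter fun t => t + 1 ∈ S)
        have h3 := Finset.card_union_le S ((Finset.range L).filter fun t => t + 1 ∈ S)
        have h4 : (((Finset.range L).filter fun t => w t ∈ U ∧ w (t + 1) ∈ U ∧
            (if Near G R p (w t) then p else c' (w t)) ≠
              (if Near G R p (w (t + 1)) then p else c' (w (t + 1)))).card : ℝ) ≤
            (((Finset.range L).filter fun t => w t ∈ U' ∧ w (t + 1) ∈ U' ∧ c' (w t) ≠ c' (w (t + 1))).card : ℝ) +
              2 * (S.card : ℝ) := by
          have h5 := h1.trans (h2.trans (Nat.add_le_add_left (h3.trans (Nat.add_le_add_left hS2 _)) _))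
          have h6 : (((Finset.range L).filter fun t => w t ∈ U ∧ w (t + 1) ∈ U ∧
            (if Near G R p (w t) then p else c' (w t)) ≠
              (if Near G R p (w (t + 1)) then p else c' (w (t + 1)))).card : ℝ) ≤
            ((((Finset.range L).filter fun t => w t ∈ U' ∧ w (t + 1) ∈ U' ∧ c' (w t) ≠ c' (w (t + 1))).card +
              (S.card + S.card) : ℕ) : ℝ) := by exact_mod_cast h5
          push_cast at h6
          linarith
        refine h4.trans ?_
        have h7 : (S.card : ℝ) + N R = N (R + 1) := by exact_mod_cast hSc
        have h8 : (((Finset.range (L + 1)).filter fun t => w t ∈ U').card : ℝ) + N R =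
            (((Finset.range (L + 1)).filter fun t => w t ∈ U).card : ℝ) := by exact_mod_cast hcard
        rw [← h8]
        nlinarith [hc2, hRN, h7]
    · push Not at hex
      refine ⟨id, fun t ht h => absurd h (hex t ht), ?_⟩
      have : ((Finset.range L).filter fun t => w t ∈ U ∧ w (t + 1) ∈ U ∧ id (w t) ≠ id (w (t + 1))) = ∅ := by
        rw [Finset.filter_eq_empty_iff]
        intro t ht h
        exact hex t (by rw [Finset.mem_range] at ht; omega) h.1
      rw [this]
      simp only [Finset.card_empty, Nat.cast_zero]
      positivity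

theorem RG (hA4 : S_A4) (hD3 : S_D3) : S_RG := by
  classical
  intro V G r a x y l ha hL hW
  rcases Nat.eq_zero_or_pos r with hr | hr
  · subst hr
    rw [pow_zero] at hL
    have h0 : l.length = 0 := by
      have : (l.length : ℝ) ≤ 0 := by linarith
      exact_mod_cast this.antisymm (Nat.cast_nonneg _)
    have hl : l = [] := List.length_eq_zero_iff.1 h0
    subst hl
    refine ⟨id, ?_, ?_⟩
    · intro z _
      exact (hA4 V G 0 0 z z z).1
    · simp only [cr, Nat.cast_zero, List.length_nil]
      nlinarith
  · obtain ⟨c, hc1, hc2⟩ := RG_main hA4 G r a (vt x l) l.length ha hr hL (RG_adj G l x y hW) _ Set.univ le_rfl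
    refine ⟨c, ?_, ?_⟩
    · intro z hz
      obtain ⟨t, ht, rfl⟩ := (hD3 V c x l).2 z hz
      exact hc1 t ht (Set.mem_univ _)
    · rw [(hD3 V c x l).1]
      simp only [Set.mem_univ, true_and, Finset.filter_true, Finset.card_range] at hc2
      convert hc2 using 1
      push_cast
      ring

end Pool.Agent.H590R2.RS
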