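import Pool.Agent.H590R2.RS.All
import Pool.Agent.H590R2.RS.Defs2
import Pool.Agent.H590R2.RS.RG
import Pool.Agent.H590R2.RS.GEN2
import Pool.Agent.H590R2.RS.H2a
import Pool.Agent.H590R2.RS.H2
import Pool.Agent.H590R2.RS.LG2

namespace Pool.Agent.H590R2.RS

theorem tRG : S_RG := RG A4 D3
theorem tGEN2 : S_GEN2 := GEN2 tC2 tRG tE F
theorem tLG2 : S_LG2 := LG2 tGEN2 (H2 H2a)

end Pool.Agent.H590R2.RS
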