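import Pool.Agent.H590R2.RS.Defs

/-!
Random signings, task D2: a good radius.
-/

namespace Pool.Agent.H590R2.RS

theorem D2L_isW_snoc {V : Type} (G : SimpleGraph V) (l : List V) :
    ∀ (x v w : V), isW G x l v → G.Adj v w → isW G x (l ++ [w]) w := by
  induction l with
  | nil =>
    intro x v w h hadj
    have h' : x = v := h
    subst h'
    exact ⟨hadj, rfl⟩
  | cons a l ih =>
    intro x v w h hadj
    exact ⟨h.1, ih a v w h.2 hadj⟩

theorem D2L_near_step {V : Type} (G : SimpleGraph V) {R R' : ℕ} (hR : R < R') {x v w : V}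
    (h : Near G R x v) (hadj : G.Adj v w) : Near G R' x w := by
  obtain ⟨l, hl, hw⟩ := h
  refine ⟨l ++ [w], ?_, D2L_isW_snoc G l x v w hw hadj⟩
  simp only [List.length_append, List.length_cons, List.length_nil]
  omega

theorem D2L_near_mono {V : Type} (G : SimpleGraph V) {R R' : ℕ} (hR : R ≤ R') {x v : V}
    (h : Near G R x v) : Near G R' x v := by
  obtain ⟨l, hl, hw⟩ := h
  exact ⟨l, hl.trans hR, hw⟩

theorem D2L_adj {V : Type} (G : SimpleGraph V) (l : List V) :
    ∀ (x y : V), isW G x l y → ∀ t < l.length, G.Adj (vt x l t) (vt x l (t + 1)) := by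
  induction l with
  | nil => intro x y _ t ht; simp at ht
  | cons a l ih =>
    intro x y h t ht
    cases t with
    | zero =>
      have : vt x (a :: l) 0 = x := rfl
      rw [this]
      have h2 : vt x (a :: l) (0 + 1) = a := by
        simp [vt, endp]
      rw [h2]
      exact h.1
    | succ t =>
      have h1 : ∀ t, vt x (a :: l) (t + 1) = vt a l t := by
        intro t
        simp [vt, endp]
      rw [h1, h1]
      exact ih a y h.2 t (by simpa using ht)

open Classical in
theorem D2 : S_D2 := by
  intro V G r x y l T hr hw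
  by_contra hcon
  set bad : ℕ → ℕ × ℕ → Prop := fun R p =>
    ¬ (Near G R (vt x l p.1) (vt x l p.2) ↔ Near G R (vt x l p.1) (vt x l (p.2 + 1))) with hbad
  have hone : ∀ p ∈ T ×ˢ Finset.range l.length,
      ((Finset.Ico r (2 * r)).filter fun R => bad R p).card ≤ 1 := by
    intro p hp
    have hp2 : p.2 < l.length := Finset.mem_range.mp (Finset.mem_product.mp hp).2
    have hadj := D2L_adj G l x y hw p.2 hp2
    rw [Finset.card_le_one]
    have key : ∀ R R', R < R' → bad R p → ¬ bad R' p := by
      intro R R' hlt hb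
      rw [hbad]
      simp only [not_not]
      have hb' : ¬ (Near G R (vt x l p.1) (vt x l p.2) ↔
        Near G R (vt x l p.1) (vt x l (p.2 + 1))) := hb
      by_cases h1 : Near G R (vt x l p.1) (vt x l p.2)
      · exact ⟨fun _ => D2L_near_step G hlt h1 hadj, fun _ => D2L_near_mono G hlt.le h1⟩
      · have h2 : Near G R (vt x l p.1) (vt x l (p.2 + 1)) := by
          by_contra h2
          exact hb' ⟨fun h => absurd h h1, fun h => absurd h h2⟩
        exact ⟨fun _ => D2L_near_mono G hlt.le h2, fun _ => D2L_near_step G hlt h2 hadj.symm⟩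
    intro R hR R' hR'
    rw [Finset.mem_filter] at hR hR'
    rcases lt_trichotomy R R' with h | h | h
    · exact absurd hR'.2 (key R R' h hR.2)
    · exact h
    · exact absurd hR.2 (key R' R h hR'.2)
  have hsum : ∑ R ∈ Finset.Ico r (2 * r),
      ((T ×ˢ Finset.range l.length).filter fun p => bad R p).card ≤ T.card * l.length := by
    have h1 : ∑ R ∈ Finset.Ico r (2 * r),
        ((T ×ˢ Finset.range l.length).filter fun p => bad R p).card =
        ∑ p ∈ T ×ˢ Finset.range l.length, ((Finset.Ico r (2 * r)).filter fun R => bad R p).card := by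
      simp_rw [Finset.card_filter]
      exact Finset.sum_comm
    rw [h1]
    calc ∑ p ∈ T ×ˢ Finset.range l.length, ((Finset.Ico r (2 * r)).filter fun R => bad R p).card
        ≤ ∑ p ∈ T ×ˢ Finset.range l.length, 1 := Finset.sum_le_sum hone
      _ = T.card * l.length := by simp
  have hlow : ∀ R ∈ Finset.Ico r (2 * r), T.card * l.length + 1 ≤
      r * ((T ×ˢ Finset.range l.length).filter fun p => bad R p).card := by
    intro R hR
    rw [Finset.mem_Ico] at hR
    by_contra hlt
    exact hcon ⟨R, hR.1, hR.2, Nat.lt_succ_iff.mp (not_le.mp hlt)⟩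
  have h2 := Finset.card_nsmul_le_sum _ _ _ hlow
  rw [← Finset.mul_sum, smul_eq_mul, Nat.card_Ico] at h2
  have h3 : 2 * r - r = r := by omega
  rw [h3] at h2
  have h4 : r * (T.card * l.length + 1) ≤ r * (T.card * l.length) :=
    h2.trans (Nat.mul_le_mul_left r hsum)
  have h5 := Nat.le_of_mul_le_mul_left h4 (by omega)
  omega

end Pool.Agent.H590R2.RS
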